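import Mathlib

/-!
# 6-adic integers, digits, and the base 6 Rudin-Shapiro cocycle
-/

set_option autoImplicit false
open MeasureTheory Filter Topology

namespace Pool.Agent.R203.Adic

/-- reduction -/
def pr (k : ℕ) : ZMod (6 ^ (k + 1)) →+* ZMod (6 ^ k) :=
  ZMod.castHom (pow_dvd_pow 6 (Nat.le_succ k)) _

/-- the ring of 6-adic integers, as compatible sequences -/
def YS : Subring (∀ k : ℕ, ZMod (6 ^ k)) where
  carrier := {f | ∀ k, pr k (f (k + 1)) = f k}
  mul_mem' := by
    intro a b ha hb k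
    simp only [Pi.mul_apply, map_mul]
    rw [ha k, hb k]
  one_mem' := by intro k; simp only [Pi.one_apply, map_one]
  add_mem' := by
    intro a b ha hb k
    simp only [Pi.add_apply, map_add]
    rw [ha k, hb k]
  zero_mem' := by intro k; simp only [Pi.zero_apply, map_zero]
  neg_mem' := by
    intro a ha k
    simp only [Pi.neg_apply, map_neg]
    rw [ha k]

/-- the 6-adic integers -/
abbrev Y : Type := YS

lemma YS_closed : IsClosed (YS : Set (∀ k : ℕ, ZMod (6 ^ k))) := by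
  have : (YS : Set (∀ k : ℕ, ZMod (6 ^ k))) = ⋂ k, {f | pr k (f (k + 1)) = f k} := by
    ext f
    simp only [Set.mem_iInter]
    rfl
  rw [this]
  refine isClosed_iInter fun k => isClosed_eq ?_ (continuous_apply k)
  exact (continuous_of_discreteTopology).comp (continuous_apply (k + 1))

instance : CompactSpace Y := isCompact_iff_compactSpace.1 YS_closed.isCompact

/-- the residue modulo `6 ^ k` -/
def v (k : ℕ) (x : Y) : ℕ := (x.1 k).val

lemma v_lt (k : ℕ) (x : Y) : v k x < 6 ^ k := ZMod.val_lt _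

lemma v_succ (k : ℕ) (x : Y) : v (k + 1) x % 6 ^ k = v k x := by
  have h : pr k (x.1 (k + 1)) = x.1 k := x.2 k
  unfold v
  rw [← h, pr, ZMod.castHom_apply, ZMod.cast_eq_val, ZMod.val_natCast]

lemma v_add (k : ℕ) (x : Y) (n : ℕ) : v k (x + n) = (v k x + n) % 6 ^ k := by
  have h : (x + (n : Y)).1 k = x.1 k + (n : ZMod (6 ^ k)) := rfl
  unfold v
  rw [h, ZMod.val_add, ZMod.val_natCast, Nat.add_mod_mod]

lemma v_ext {x y : Y} (h : ∀ k, v k x = v k y) : x = y := by
  apply Subtype.ext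
  funext k
  exact ZMod.val_injective _ (h k)

/-- the digits -/
def d (i : ℕ) (x : Y) : ℕ := v (i + 1) x / 6 ^ i

lemma v_digit (i : ℕ) (x : Y) : v i x + 6 ^ i * d i x = v (i + 1) x := by
  rw [← v_succ i x, d]
  exact Nat.mod_add_div _ _

lemma d_lt (i : ℕ) (x : Y) : d i x < 6 := by
  unfold d
  apply Nat.div_lt_of_lt_mul
  rw [← pow_succ]
  exact v_lt _ _

/-- adding `n` produces no carry out of the first `t` digits -/
def NC (n t : ℕ) (x : Y) : Prop := v t x + n < 6 ^ t

lemma NC_succ {n t : ℕ} {x : Y} (h : NC n t x) : NC n (t + 1) x := by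
  unfold NC at *
  rw [← v_digit t x, pow_succ]
  have h1 := d_lt t x
  have h2 : 6 ^ t * d t x ≤ 6 ^ t * 5 := Nat.mul_le_mul_left _ (by omega)
  omega

lemma NC_mono {n t s : ℕ} {x : Y} (hts : t ≤ s) (h : NC n t x) : NC n s x := by
  induction s, hts using Nat.le_induction with
  | base => exact h
  | succ s _ ih => exact NC_succ ih

lemma v_NC {n t : ℕ} {x : Y} (h : NC n t x) : v t (x + n) = v t x + n := by
  rw [v_add, Nat.mod_eq_of_lt h]

/-- digits above the carry do not change -/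
lemma d_eq {n t i : ℕ} {x : Y} (h : NC n t x) (hi : t ≤ i) : d i (x + n) = d i x := by
  have h1 : NC n i x := NC_mono hi h
  have h2 : NC n (i + 1) x := NC_succ h1
  unfold d
  rw [v_NC h2, ← v_digit i x]
  unfold NC at h1
  have e1 : v i x + 6 ^ i * d i x + n = 6 ^ i * d i x + (v i x + n) := by ring
  have e2 : v i x + 6 ^ i * d i x = 6 ^ i * d i x + v i x := by ring
  rw [e1, e2, Nat.mul_add_div (by positivity), Nat.mul_add_div (by positivity),
    Nat.div_eq_of_lt h1, Nat.div_eq_of_lt (v_lt i x)]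

/-- `t` is the top changed digit -/
def E (n t : ℕ) : Set Y := {x | NC n (t + 1) x ∧ ¬ NC n t x}

lemma mem_E {n t : ℕ} {x : Y} : x ∈ E n t ↔ NC n (t + 1) x ∧ ¬ NC n t x := Iff.rfl

/-- the top changed digit increases -/
lemma d_top {n t : ℕ} {x : Y} (h : x ∈ E n t) : d t x < d t (x + n) := by
  obtain ⟨h1, h2⟩ := h
  unfold NC at h2
  have h3 : 6 ^ t * (d t x + 1) ≤ v (t + 1) (x + n) := by
    rw [v_NC h1, ← v_digit t x, mul_add]
    omega
  have h4 : d t x + 1 ≤ v (t + 1) (x + n) / 6 ^ t := by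
    rw [Nat.le_div_iff_mul_le (by positivity), mul_comm]
    exact h3
  have h5 : d t (x + n) = v (t + 1) (x + n) / 6 ^ t := rfl
  omega

lemma E_disjoint (n : ℕ) : Pairwise (Function.onFun Disjoint (E n)) := by
  have key : ∀ s t : ℕ, s < t → Disjoint (E n s) (E n t) := by
    intro s t hst
    rw [Set.disjoint_left]
    rintro x ⟨h1, -⟩ ⟨-, h2⟩
    exact h2 (NC_mono (by omega) h1)
  intro s t hst
  rcases lt_or_gt_of_ne hst with h | h
  · exact key s t h
  · exact (key t s h).symm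

/-- products of neighbouring digits -/
def b (i : ℕ) (x : Y) : ZMod 6 := (d i x : ZMod 6) * (d (i + 1) x : ZMod 6)

/-- the formal sum -/
def S (N : ℕ) (x : Y) : ZMod 6 := ∑ i ∈ Finset.range N, b i x

lemma b_eq {n t i : ℕ} {x : Y} (h : NC n t x) (hi : t ≤ i) : b i (x + n) = b i x := by
  unfold b
  rw [d_eq h hi, d_eq h (by omega)]

lemma S_eq {n t s : ℕ} {x : Y} (h : NC n t x) (hs : t ≤ s) :
    S s (x + n) - S s x = S t (x + n) - S t x := by
  induction s, hs using Nat.le_induction with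
  | base => rfl
  | succ s hs ih =>
    unfold S at *
    rw [Finset.sum_range_succ, Finset.sum_range_succ, b_eq h hs, ← ih]
    ring

open Classical in
/-- the cocycle -/
noncomputable def phi (x : Y) : ZMod 6 :=
  if h : ∃ t, NC 1 t x then S (Nat.find h) (x + 1) - S (Nat.find h) x else 0

lemma phi_eq {t : ℕ} {x : Y} (h : NC 1 t x) : phi x = S t (x + 1) - S t x := by
  classical
  have hex : ∃ t, NC 1 t x := ⟨t, h⟩
  unfold phi
  rw [dif_pos hex]
  have h1 := Nat.find_spec hex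
  have h2 : Nat.find hex ≤ t := Nat.find_min' hex h
  have := S_eq h1 h2
  rw [Nat.cast_one] at this
  exact this.symm

/-- iterated cocycle -/
noncomputable def cs (n : ℕ) (x : Y) : ZMod 6 := ∑ m ∈ Finset.range n, phi (x + m)

lemma cs_eq {n t : ℕ} {x : Y} (h : NC n t x) : cs n x = S t (x + n) - S t x := by
  induction n with
  | zero => simp [cs]
  | succ n ih =>
    have h1 : NC n t x := by unfold NC at *; omega
    have h2 : NC 1 t (x + n) := by
      unfold NC at *
      rw [v_NC h1]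
      omega
    have e : cs (n + 1) x = cs n x + phi (x + n) := Finset.sum_range_succ _ _
    rw [e, ih h1, phi_eq h2]
    have e2 : x + (n : Y) + 1 = x + ((n + 1 : ℕ) : Y) := by push_cast; ring
    rw [e2]
    ring

/-! ### Translation by `6 ^ (t + 1)` -/

/-- the translation -/
def tr (k : ℕ) (x : Y) : Y := x + ((6 ^ k : ℕ) : Y)

lemma v_tr {k i : ℕ} (h : i ≤ k) (x : Y) : v i (tr k x) = v i x := by
  rw [tr, v_add]
  obtain ⟨c, rfl⟩ := Nat.exists_eq_add_of_le h
  rw [pow_add, Nat.add_mul_mod_self_left, Nat.mod_eq_of_lt (v_lt i x)]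

lemma d_tr {k i : ℕ} (h : i < k) (x : Y) : d i (tr k x) = d i x := by
  unfold d
  rw [v_tr h]

lemma d_tr_self (k : ℕ) (x : Y) : d k (tr k x) = (d k x + 1) % 6 := by
  unfold d
  rw [tr, v_add, pow_succ, Nat.mod_mul_right_div_self, ← v_digit k x]
  have e : v k x + 6 ^ k * d k x + 6 ^ k = v k x + 6 ^ k * (d k x + 1) := by ring
  rw [e, Nat.add_mul_div_left _ _ (by positivity), Nat.div_eq_of_lt (v_lt k x), zero_add]
  have e2 : (v k x + 6 ^ k * d k x) / 6 ^ k = d k x := by
    rw [Nat.add_mul_div_left _ _ (by positivity), Nat.div_eq_of_lt (v_lt k x), zero_add]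
  rw [e2]

lemma tr_add (k n : ℕ) (x : Y) : tr k x + (n : Y) = tr k (x + n) := by
  unfold tr; ring

lemma NC_tr {n t k : ℕ} (h : t ≤ k) (x : Y) : NC n t (tr k x) ↔ NC n t x := by
  unfold NC
  rw [v_tr h]

lemma E_tr {n t k : ℕ} (h : t + 1 ≤ k) (x : Y) : tr k x ∈ E n t ↔ x ∈ E n t := by
  rw [mem_E, mem_E, NC_tr h, NC_tr (by omega)]

/-- increment of the top changed digit -/
def del (n t : ℕ) (x : Y) : ZMod 6 := (d t (x + n) : ZMod 6) - (d t x : ZMod 6)

lemma del_tr {n t : ℕ} (x : Y) : del n t (tr (t + 1) x) = del n t x := by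
  unfold del
  rw [tr_add, d_tr (by omega), d_tr (by omega)]

lemma del_ne {n t : ℕ} {x : Y} (h : x ∈ E n t) : del n t x ≠ 0 := by
  have h1 := d_top h
  have h2 := d_lt t (x + n)
  have h3 := d_lt t x
  unfold del
  rw [sub_ne_zero]
  intro hcon
  have := (ZMod.natCast_eq_natCast_iff' _ _ _).1 hcon
  rw [Nat.mod_eq_of_lt h2, Nat.mod_eq_of_lt h3] at this
  omega

/-- the cocycle moves by `del` -/
lemma cs_tr {n t : ℕ} {x : Y} (h : x ∈ E n t) : cs n (tr (t + 1) x) = cs n x + del n t x := by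
  have h1 : NC n (t + 1) x := h.1
  have h2 : NC n (t + 1) (tr (t + 1) x) := (NC_tr le_rfl x).2 h1
  rw [cs_eq h1, cs_eq h2, tr_add]
  unfold S
  rw [Finset.sum_range_succ, Finset.sum_range_succ, Finset.sum_range_succ, Finset.sum_range_succ]
  have e1 : ∀ y : Y, ∑ i ∈ Finset.range t, b i (tr (t + 1) y) = ∑ i ∈ Finset.range t, b i y := by
    intro y
    refine Finset.sum_congr rfl fun i hi => ?_
    have hi' := Finset.mem_range.1 hi
    unfold b
    rw [d_tr (by omega), d_tr (by omega)]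
  rw [e1, e1]
  unfold b del
  have e2 : d (t + 1) (x + n) = d (t + 1) x := d_eq h1 le_rfl
  rw [d_tr (show t < t + 1 by omega) (x + n), d_tr (show t < t + 1 by omega) x, d_tr_self,
    d_tr_self, e2]
  have e3 : (((d (t + 1) x + 1) % 6 : ℕ) : ZMod 6) = (d (t + 1) x : ZMod 6) + 1 := by
    rw [ZMod.natCast_mod]; push_cast; ring
  rw [e3]
  ring

/-! ### Adding `r 6 ^ k` -/

lemma NC_pow {r k t : ℕ} (hr : 0 < r) (ht : t ≤ k) (x : Y) : ¬ NC (r * 6 ^ k) t x := by
  unfold NC
  have h1 : 6 ^ t ≤ 6 ^ k := Nat.pow_le_pow_right (by norm_num) ht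
  have h2 : 6 ^ k ≤ r * 6 ^ k := Nat.le_mul_of_pos_left _ hr
  omega

lemma v_pow {r k t : ℕ} (ht : t ≤ k) (x : Y) : v t (x + ((r * 6 ^ k : ℕ) : Y)) = v t x := by
  rw [v_add]
  obtain ⟨c, rfl⟩ := Nat.exists_eq_add_of_le ht
  rw [show r * 6 ^ (t + c) = 6 ^ t * (r * 6 ^ c) by rw [pow_add]; ring,
    Nat.add_mul_mod_self_left, Nat.mod_eq_of_lt (v_lt t x)]

/-- beyond the digit `k` the carry is one -/
lemma del_pow {r k t : ℕ} (hr : r < 6) (ht : k < t) {x : Y} (h : x ∈ E (r * 6 ^ k) t) :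
    del (r * 6 ^ k) t x = 1 := by
  obtain ⟨h1, h2⟩ := h
  have h3 : r * 6 ^ k < 6 ^ t := by
    calc r * 6 ^ k < 6 * 6 ^ k := Nat.mul_lt_mul_of_pos_right hr (by positivity)
      _ = 6 ^ (k + 1) := by rw [pow_succ]; ring
      _ ≤ 6 ^ t := Nat.pow_le_pow_right (by norm_num) ht
  have h4 : d t (x + ((r * 6 ^ k : ℕ) : Y)) = d t x + 1 := by
    rw [d, v_NC h1, ← v_digit t x]
    unfold NC at h2
    have hv := v_lt t x
    obtain ⟨w, hw⟩ : ∃ w, v t x + r * 6 ^ k = 6 ^ t + w := ⟨v t x + r * 6 ^ k - 6 ^ t, by omega⟩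
    have hw2 : w < 6 ^ t := by omega
    have e : v t x + 6 ^ t * d t x + r * 6 ^ k = w + 6 ^ t * (d t x + 1) := by
      rw [mul_add]; omega
    rw [e, Nat.add_mul_div_left _ _ (by positivity), Nat.div_eq_of_lt hw2, zero_add]
  unfold del
  rw [h4]
  push_cast
  ring

/-- at the digit `k` -/
lemma cs_pow {r k : ℕ} {x : Y} (h : NC (r * 6 ^ k) (k + 1) x) :
    ∃ c : ZMod 6, cs (r * 6 ^ k) x = r * c := by
  rw [cs_eq h]
  have hd : d k (x + ((r * 6 ^ k : ℕ) : Y)) = d k x + r := by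
    rw [d, v_NC h, ← v_digit k x]
    have e : v k x + 6 ^ k * d k x + r * 6 ^ k = v k x + 6 ^ k * (d k x + r) := by ring
    rw [e, Nat.add_mul_div_left _ _ (by positivity), Nat.div_eq_of_lt (v_lt k x), zero_add]
  have hlow : ∀ i < k, d i (x + ((r * 6 ^ k : ℕ) : Y)) = d i x := by
    intro i hi
    unfold d
    rw [v_pow (by omega)]
  have htop : d (k + 1) (x + ((r * 6 ^ k : ℕ) : Y)) = d (k + 1) x := d_eq h le_rfl
  unfold S
  cases k with
  | zero =>
    refine ⟨d 1 x, ?_⟩
    simp only [zero_add, Finset.sum_range_one, b]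
    rw [hd, htop]
    push_cast
    ring
  | succ k =>
    refine ⟨d k x + d (k + 2) x, ?_⟩
    rw [Finset.sum_range_succ, Finset.sum_range_succ, Finset.sum_range_succ,
      Finset.sum_range_succ]
    have e1 : ∑ i ∈ Finset.range k, b i (x + ((r * 6 ^ (k + 1) : ℕ) : Y)) =
        ∑ i ∈ Finset.range k, b i x := by
      refine Finset.sum_congr rfl fun i hi => ?_
      have hi' := Finset.mem_range.1 hi
      unfold b
      rw [hlow i (by omega), hlow (i + 1) (by omega)]
    rw [e1]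
    unfold b
    rw [hlow k (by omega), hd, htop]
    push_cast
    ring

end Pool.Agent.R203.Adic
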