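import Mathlib
import Pool.Agent.R203.Adic

/-!
# Integrals over the 6-adic integers and randomisation of the cocycle
-/

set_option autoImplicit false
open MeasureTheory Filter Topology

namespace Pool.Agent.R203.Adic

/-- Haar probability measure -/
noncomputable def muY : Measure Y :=
  Measure.addHaarMeasure (⊤ : TopologicalSpace.PositiveCompacts Y)

instance : IsProbabilityMeasure muY := ⟨by
  have := Measure.addHaarMeasure_self (K₀ := (⊤ : TopologicalSpace.PositiveCompacts Y))
  simpa [muY] using this⟩

instance : muY.IsAddHaarMeasure := by unfold muY; infer_instance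

lemma v_cont (k : ℕ) : Continuous (v k) := by
  have h1 : Continuous fun x : Y => x.1 k := (continuous_apply k).comp continuous_subtype_val
  exact (continuous_of_discreteTopology (f := fun a : ZMod (6 ^ k) => a.val)).comp h1

lemma v_meas (k : ℕ) : Measurable (v k) := (v_cont k).measurable

lemma d_meas (k : ℕ) : Measurable (d k) := by
  have h1 : Measurable fun m : ℕ => m / 6 ^ k := measurable_from_top
  exact h1.comp (v_meas (k + 1))

lemma NC_meas (n t : ℕ) : MeasurableSet {x | NC n t x} := by
  have : {x | NC n t x} = (v t) ⁻¹' {m | m + n < 6 ^ t} := rfl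
  rw [this]
  exact v_meas t (MeasurableSet.of_discrete)

lemma E_meas (n t : ℕ) : MeasurableSet (E n t) := (NC_meas n (t + 1)).diff (NC_meas n t)

lemma integral_tr (k : ℕ) (F : Y → ℝ) : ∫ x, F (tr k x) ∂muY = ∫ x, F x ∂muY :=
  integral_add_right_eq_self F _

/-- the digit `k` is equidistributed with respect to functions of the lower digits -/
lemma digit_integral (k : ℕ) {F : Y → ℝ} (hF : Integrable F muY) (hinv : ∀ x, F (tr k x) = F x)
    (a : ℕ) (ha : a < 6) :
    ∫ x, (if d k x = a then F x else 0) ∂muY = 1 / 6 * ∫ x, F x ∂muY := by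
  have hmeas : ∀ c, MeasurableSet {x | d k x = c} := fun c =>
    d_meas k (measurableSet_singleton c)
  have hint : ∀ c, Integrable (fun x => if d k x = c then F x else 0) muY := by
    intro c
    have : (fun x => if d k x = c then F x else 0) = {x | d k x = c}.indicator F := by
      funext x
      by_cases h : d k x = c
      · rw [if_pos h, Set.indicator_of_mem (show x ∈ {x | d k x = c} from h)]
      · rw [if_neg h, Set.indicator_of_notMem (show x ∉ {x | d k x = c} from h)]
    rw [this]
    exact hF.indicator (hmeas c)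
  have hstep : ∀ c, c + 1 < 6 → ∫ x, (if d k x = c + 1 then F x else 0) ∂muY =
      ∫ x, (if d k x = c then F x else 0) ∂muY := by
    intro c hc
    rw [← integral_tr k]
    congr 1
    funext x
    rw [d_tr_self, hinv]
    have h1 := d_lt k x
    by_cases h : d k x = c
    · rw [if_pos h, if_pos (by rw [h, Nat.mod_eq_of_lt hc])]
    · rw [if_neg h, if_neg]
      intro h2
      by_cases h3 : d k x + 1 < 6
      · rw [Nat.mod_eq_of_lt h3] at h2; omega
      · have : d k x + 1 = 6 := by omega
        rw [this] at h2
        simp at h2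
  have hall : ∀ c, c < 6 → ∫ x, (if d k x = c then F x else 0) ∂muY =
      ∫ x, (if d k x = 0 then F x else 0) ∂muY := by
    intro c
    induction c with
    | zero => intro _; rfl
    | succ c ih =>
      intro hc
      rw [hstep c hc, ih (by omega)]
  have hsum : ∑ c ∈ Finset.range 6, ∫ x, (if d k x = c then F x else 0) ∂muY =
      ∫ x, F x ∂muY := by
    rw [← integral_finsetSum _ fun c _ => hint c]
    congr 1
    funext x
    rw [Finset.sum_ite_eq]
    rw [if_pos (Finset.mem_range.2 (d_lt k x))]
  rw [Finset.sum_congr rfl (fun c hc => hall c (Finset.mem_range.1 hc)), Finset.sum_const,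
    Finset.card_range, nsmul_eq_mul] at hsum
  rw [hall a ha, ← hsum]
  push_cast
  ring

/-- almost every point has no infinite carry -/
lemma ae_NC (n : ℕ) : ∀ᵐ x ∂muY, ∃ t, NC n t x := by
  have hint : ∀ t, Integrable ({x | ¬ NC n t x}.indicator (fun _ => (1 : ℝ))) muY := fun t =>
    (integrable_const _).indicator (NC_meas n t).compl
  have hreal : ∀ t, muY.real {x | ¬ NC n t x} =
      ∫ x, {x | ¬ NC n t x}.indicator (fun _ => (1 : ℝ)) x ∂muY := by
    intro t
    have hm : MeasurableSet {x | ¬ NC n t x} := (NC_meas n t).compl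
    rw [integral_indicator hm]
    simp
  have hstep : ∀ t, n ≤ 6 ^ t → muY.real {x | ¬ NC n (t + 1) x} ≤
      1 / 6 * muY.real {x | ¬ NC n t x} := by
    intro t ht
    rw [hreal (t + 1), hreal t, ← digit_integral t (hint t) ?_ 5 (by norm_num)]
    · refine integral_mono (hint (t + 1)) ?_ fun x => ?_
      · have : (fun x => if d t x = 5 then {x | ¬ NC n t x}.indicator (fun _ => (1 : ℝ)) x else 0) =
            {x | d t x = 5}.indicator ({x | ¬ NC n t x}.indicator (fun _ => (1 : ℝ))) := by
          funext x
          by_cases h : d t x = 5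
          · rw [if_pos h, Set.indicator_of_mem (show x ∈ {x | d t x = 5} from h)]
          · rw [if_neg h, Set.indicator_of_notMem (show x ∉ {x | d t x = 5} from h)]
        rw [this]
        exact (hint t).indicator (d_meas t (measurableSet_singleton 5))
      · by_cases h : x ∈ {x | ¬ NC n (t + 1) x}
        · have h1 : ¬ NC n t x := fun h2 => h (NC_succ h2)
          have h2 : d t x = 5 := by
            have h3 : ¬ v (t + 1) x + n < 6 ^ (t + 1) := h
            rw [← v_digit t x, pow_succ] at h3
            have h4 := v_lt t x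
            have h5 := d_lt t x
            by_contra hne
            have h6 : 6 ^ t * d t x ≤ 6 ^ t * 4 := Nat.mul_le_mul_left _ (by omega)
            omega
          rw [Set.indicator_of_mem h]
          simp only
          rw [if_pos h2, Set.indicator_of_mem (show x ∈ {x | ¬ NC n t x} from h1)]
        · rw [Set.indicator_of_notMem h]
          simp only
          split_ifs
          · exact Set.indicator_nonneg (fun _ _ => zero_le_one) _
          · exact le_rfl
    · intro x
      have : tr t x ∈ {x | ¬ NC n t x} ↔ x ∈ {x | ¬ NC n t x} := by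
        show ¬ NC n t (tr t x) ↔ ¬ NC n t x
        rw [NC_tr le_rfl]
      by_cases h : x ∈ {x | ¬ NC n t x}
      · rw [Set.indicator_of_mem h, Set.indicator_of_mem (this.2 h)]
      · rw [Set.indicator_of_notMem h, Set.indicator_of_notMem (fun h2 => h (this.1 h2))]
  have hle : n ≤ 6 ^ n := (Nat.lt_pow_self (by norm_num)).le
  have hpow : ∀ j : ℕ, muY.real {x | ¬ NC n (n + j) x} ≤ (1 / 6) ^ j := by
    intro j
    induction j with
    | zero => simpa using measureReal_le_one
    | succ j ih =>
      have h1 : n ≤ 6 ^ (n + j) := hle.trans (Nat.pow_le_pow_right (by norm_num) (by omega))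
      refine (hstep (n + j) h1).trans ?_
      rw [pow_succ, mul_comm]
      exact mul_le_mul_of_nonneg_right ih (by norm_num)
  rw [ae_iff]
  have h0 : muY.real {x | ¬ ∃ t, NC n t x} ≤ 0 := by
    refine ge_of_tendsto' (tendsto_pow_atTop_nhds_zero_of_lt_one (r := (1 / 6 : ℝ)) (by norm_num)
      (by norm_num)) fun j => le_trans (measureReal_mono ?_) (hpow j)
    intro x hx h
    exact hx ⟨n + j, h⟩
  have h1 : muY.real {x | ¬ ∃ t, NC n t x} = 0 := le_antisymm h0 measureReal_nonneg
  exact (measureReal_eq_zero_iff).1 h1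

lemma ae_E {n : ℕ} (hn : 0 < n) : ∀ᵐ x ∂muY, x ∈ ⋃ t, E n t := by
  filter_upwards [ae_NC n] with x hx
  classical
  have h1 := Nat.find_spec hx
  have h2 : Nat.find hx ≠ 0 := by
    intro h
    rw [h] at h1
    unfold NC at h1
    simp at h1
    omega
  obtain ⟨t, ht⟩ := Nat.exists_eq_succ_of_ne_zero h2
  refine Set.mem_iUnion.2 ⟨t, ?_, ?_⟩
  · rw [ht] at h1; exact h1
  · exact Nat.find_min hx (by omega)

/-- splitting an integral along the pieces `E n t` -/
lemma integral_nonneg_of_E {n : ℕ} (hn : 0 < n) {F : Y → ℝ} (hF : Integrable F muY)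
    (h : ∀ t, 0 ≤ ∫ x in E n t, F x ∂muY) : 0 ≤ ∫ x, F x ∂muY := by
  have h1 : ∫ x, F x ∂muY = ∫ x in ⋃ t, E n t, F x ∂muY := by
    rw [Measure.restrict_eq_self_of_ae_mem (ae_E hn)]
  rw [h1, integral_iUnion (E_meas n) (E_disjoint n) hF.integrableOn]
  exact tsum_nonneg h

lemma b_meas (i : ℕ) : Measurable (b i) := by
  have h1 : Measurable fun p : ℕ × ℕ => (p.1 : ZMod 6) * (p.2 : ZMod 6) :=
    measurable_of_countable _
  exact h1.comp ((d_meas i).prodMk (d_meas (i + 1)))

lemma S_meas (N : ℕ) : Measurable (S N) := by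
  unfold S
  induction N with
  | zero => simp only [Finset.range_zero, Finset.sum_empty]; exact measurable_const
  | succ N ih =>
    simp only [Finset.sum_range_succ]
    have h1 : Measurable fun p : ZMod 6 × ZMod 6 => p.1 + p.2 := measurable_of_countable _
    exact h1.comp (ih.prodMk (b_meas N))

lemma phi_meas : Measurable phi := by
  refine measurable_to_countable' fun a => ?_
  have h1 : phi ⁻¹' {a} = (⋃ t, ({x | NC 1 t x} ∩ {x | S t (x + 1) - S t x = a})) ∪
      ({x | ∀ t, ¬ NC 1 t x} ∩ {_x | a = 0}) := by
    ext x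
    simp only [Set.mem_preimage, Set.mem_singleton_iff, Set.mem_union, Set.mem_iUnion,
      Set.mem_inter_iff, Set.mem_ofPred_eq]
    constructor
    · intro h
      by_cases hx : ∃ t, NC 1 t x
      · obtain ⟨t, ht⟩ := hx
        left
        refine ⟨t, ht, ?_⟩
        rw [← h, phi_eq ht]
      · right
        refine ⟨fun t ht => hx ⟨t, ht⟩, ?_⟩
        rw [← h, phi, dif_neg hx]
    · rintro (⟨t, ht, h⟩ | ⟨h, h0⟩)
      · rw [phi_eq ht, h]
      · rw [phi, dif_neg (by rintro ⟨t, ht⟩; exact h t ht), h0]
  rw [h1]
  refine MeasurableSet.union (MeasurableSet.iUnion fun t => ?_) ?_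
  · refine (NC_meas 1 t).inter ?_
    have h2 : Measurable fun p : ZMod 6 × ZMod 6 => p.1 - p.2 := measurable_of_countable _
    have h3 : Measurable fun x : Y => S t (x + 1) :=
      (S_meas t).comp (measurable_id.add_const 1)
    exact (h2.comp (h3.prodMk (S_meas t))) (measurableSet_singleton a)
  · refine MeasurableSet.inter ?_ (MeasurableSet.const _)
    have : {x : Y | ∀ t, ¬ NC 1 t x} = ⋂ t, {x | NC 1 t x}ᶜ := by
      ext x
      simp only [Set.mem_iInter]
      rfl
    rw [this]
    exact MeasurableSet.iInter fun t => (NC_meas 1 t).compl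

lemma cs_meas (n : ℕ) : Measurable (cs n) := by
  unfold cs
  induction n with
  | zero => simp only [Finset.range_zero, Finset.sum_empty]; exact measurable_const
  | succ N ih =>
    simp only [Finset.sum_range_succ]
    have h1 : Measurable fun p : ZMod 6 × ZMod 6 => p.1 + p.2 := measurable_of_countable _
    exact h1.comp (ih.prodMk (phi_meas.comp (measurable_id.add_const _)))

/-- bounded measurable families -/
structure Nice (q : Y → ZMod 6 → ℝ) : Prop where
  meas : ∀ c, Measurable fun x => q x c
  bdd : ∃ C, ∀ x c, |q x c| ≤ C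

lemma Nice.meas2 {q : Y → ZMod 6 → ℝ} (h : Nice q) {g : Y → ZMod 6} (hg : Measurable g) :
    Measurable fun x => q x (g x) := by
  have h1 : Measurable fun p : Y × ZMod 6 => q p.1 p.2 :=
    measurable_from_prod_countable_left h.meas
  exact h1.comp (measurable_id.prodMk hg)

lemma Nice.integrable {q : Y → ZMod 6 → ℝ} (h : Nice q) {g : Y → ZMod 6} (hg : Measurable g) :
    Integrable (fun x => q x (g x)) muY := by
  obtain ⟨C, hC⟩ := h.bdd
  exact Integrable.of_bound (h.meas2 hg).aestronglyMeasurable C
    (Eventually.of_forall fun x => by rw [Real.norm_eq_abs]; exact hC _ _)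

lemma del_meas (n t : ℕ) : Measurable (del n t) := by
  unfold del
  have h1 : Measurable fun p : ℕ × ℕ => (p.1 : ZMod 6) - (p.2 : ZMod 6) :=
    measurable_of_countable _
  exact h1.comp (((d_meas t).comp (measurable_id.add_const _)).prodMk (d_meas t))

lemma step {n t : ℕ} {q : Y → ZMod 6 → ℝ} (hinv : ∀ x ∈ E n t, q (tr (t + 1) x) = q x) :
    ∫ x in E n t, q x (cs n x) ∂muY = ∫ x in E n t, q x (cs n x + del n t x) ∂muY := by
  rw [← integral_indicator (E_meas n t), ← integral_indicator (E_meas n t),
    ← integral_tr (t + 1)]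
  congr 1
  funext x
  by_cases hx : x ∈ E n t
  · rw [Set.indicator_of_mem hx, Set.indicator_of_mem ((E_tr le_rfl x).2 hx), hinv x hx, cs_tr hx]
  · rw [Set.indicator_of_notMem hx,
      Set.indicator_of_notMem (fun h => hx ((E_tr le_rfl x).1 h))]

lemma steps {n t : ℕ} {q : Y → ZMod 6 → ℝ} (hinv : ∀ x ∈ E n t, q (tr (t + 1) x) = q x)
    (j : ℕ) :
    ∫ x in E n t, q x (cs n x) ∂muY = ∫ x in E n t, q x (cs n x + j * del n t x) ∂muY := by
  induction j with
  | zero => simp
  | succ j ih =>
    rw [ih, step (q := fun x c => q x (c + j * del n t x))]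
    · congr 1
      funext x
      congr 1
      push_cast
      ring
    · intro x hx
      funext c
      rw [hinv x hx, del_tr]

/-- **Randomisation.** -/
theorem randomise {n t : ℕ} {q : Y → ZMod 6 → ℝ} (hq : Nice q)
    (hinv : ∀ x ∈ E n t, q (tr (t + 1) x) = q x) :
    ∫ x in E n t, q x (cs n x) ∂muY =
      ∫ x in E n t, (1 / 6 * ∑ j ∈ Finset.range 6, q x (cs n x + j * del n t x)) ∂muY := by
  have hm : ∀ j : ℕ, Measurable fun x => cs n x + j * del n t x := by
    intro j
    have h1 : Measurable fun p : ZMod 6 × ZMod 6 => p.1 + j * p.2 := measurable_of_countable _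
    exact h1.comp ((cs_meas n).prodMk (del_meas n t))
  rw [integral_const_mul, integral_finsetSum _ fun j _ => (hq.integrable (hm j)).integrableOn,
    ← Finset.sum_congr rfl (fun j _ => steps hinv j), Finset.sum_const, Finset.card_range,
    nsmul_eq_mul]
  push_cast
  ring

end Pool.Agent.R203.Adic
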