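import Mathlib

/-!
# Product measures: approximation by cylinders, mixing of the two-sided shift
-/

set_option autoImplicit false

namespace Pool.Agent.R203.Bern

open MeasureTheory ProbabilityTheory Set Filter Topology
open scoped ENNReal symmDiff

universe u v w

/-- The law of an iid family indexed by `ι` with one-site law `lam`. -/
noncomputable def iid (ι : Type u) {T : Type v} [MeasurableSpace T] (lam : Measure T) :
    Measure (ι → T) := Measure.infinitePi (fun _ : ι => lam)

section

variable {ι : Type u} {κ : Type w} {T : Type v} [MeasurableSpace T] (lam : Measure T)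
  [IsProbabilityMeasure lam]

instance : IsProbabilityMeasure (iid ι lam) := by unfold iid; infer_instance

theorem measurable_comp (f : κ → ι) : Measurable (fun x : ι → T => fun k => x (f k)) :=
  measurable_pi_lambda _ fun k => measurable_pi_apply (f k)

theorem map_comp (f : κ → ι) (hf : Function.Injective f) :
    (iid ι lam).map (fun x : ι → T => fun k => x (f k)) = iid κ lam := by
  unfold iid
  refine Measure.eq_infinitePi _ ?_
  intro s t ht
  classical
  have hm : MeasurableSet ((↑s : Set κ).pi t) :=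
    MeasurableSet.pi s.countable_toSet fun i _ => ht i
  rw [Measure.map_apply (measurable_comp f) hm]
  by_cases hk : Nonempty κ
  · set g := Function.invFun f with hg
    have hgf : ∀ k, g (f k) = k := Function.leftInverse_invFun hf
    have e : (fun x : ι → T => fun k => x (f k)) ⁻¹' ((↑s : Set κ).pi t) =
        ((↑(s.image f) : Set ι).pi (fun i => t (g i))) := by
      ext x
      simp only [Set.mem_preimage, Set.mem_pi, Finset.coe_image, Set.mem_image, Finset.mem_coe]
      constructor
      · rintro h _ ⟨i, hi, rfl⟩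
        rw [hgf]
        exact h i hi
      · intro h i hi
        have := h (f i) ⟨i, hi, rfl⟩
        rwa [hgf] at this
    rw [e, Measure.infinitePi_pi _ (fun i _ => ht (g i)), Finset.prod_image (fun a _ b _ h => hf h)]
    refine Finset.prod_congr rfl fun i _ => ?_
    rw [hgf]
  · have hs : s = ∅ := by
      ext k
      exact (hk ⟨k⟩).elim
    subst hs
    simp

/-- Approximation of measurable sets by finite dimensional ones. -/
theorem approx {A : Set (ι → T)} (hA : MeasurableSet A) {ε : ℝ≥0∞} (hε : 0 < ε) :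
    ∃ (F : Finset ι) (S : Set (F → T)), MeasurableSet S ∧
      iid ι lam ((F.restrict ⁻¹' S) ∆ A) < ε := by
  have h1 : IsSetRing (measurableCylinders (fun _ : ι => T)) := isSetRing_measurableCylinders
  obtain ⟨t, ht, ht2⟩ := exists_measure_symmDiff_lt_of_generateFrom_isSetRing
    (μ := iid ι lam) h1 ⟨{univ}, countable_singleton _, by
      rw [singleton_subset_iff]; exact univ_mem_measurableCylinders _, by simp⟩
      (generateFrom_measurableCylinders).symm hA hε
  obtain ⟨F, S, hS, rfl⟩ := (mem_measurableCylinders t).1 ht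
  exact ⟨F, S, hS, ht2⟩

/-- Independence of disjoint sets of coordinates. -/
theorem indep_coord [Countable ι] (F : Finset ι) (f : κ → ι) (h : ∀ k, f k ∉ F) (s : Finset κ) :
    IndepFun (fun x : ι → T => F.restrict x) (fun x : ι → T => s.restrict (fun k => x (f k)))
      (iid ι lam) := by
  classical
  have h1 : iIndepFun (fun (i : ι) (x : ι → T) => x i) (iid ι lam) :=
    iIndepFun_infinitePi (P := fun _ : ι => lam) (X := fun _ : ι => (id : T → T))
      (fun _ => measurable_id)
  have hd : Disjoint F (s.image f) := by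
    rw [Finset.disjoint_left]
    intro i hi hi2
    obtain ⟨k, _, rfl⟩ := Finset.mem_image.1 hi2
    exact h k hi
  have h2 := h1.indepFun_finset F (s.image f) hd (fun i => measurable_pi_apply i)
  have h3 := h2.comp (φ := id) (ψ := fun z : (↥(s.image f) → T) =>
    fun k : s => z ⟨f k, Finset.mem_image_of_mem f k.2⟩) measurable_id
    (measurable_pi_lambda _ fun k => measurable_pi_apply _)
  exact h3


/-- the shift on two-sided sequences -/
def shiftZ {T : Type v} (x : ℤ → T) : ℤ → T := fun k => x (k + 1)

omit [MeasurableSpace T] in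
theorem shiftZ_iter (n : ℕ) (x : ℤ → T) : shiftZ^[n] x = fun k => x (k + n) := by
  induction n generalizing x with
  | zero => funext k; simp
  | succ n ih =>
    rw [Function.iterate_succ_apply, ih]
    funext k
    simp only [shiftZ]
    congr 1
    push_cast
    ring

theorem shiftZ_mp : MeasurePreserving (shiftZ (T := T)) (iid ℤ lam) (iid ℤ lam) :=
  ⟨measurable_comp (fun k : ℤ => k + 1), map_comp lam (fun k : ℤ => k + 1)
    (fun a b h => by simpa using h)⟩

/-- mixing of the two-sided Bernoulli shift, real-valued form -/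
theorem mixing_real {A B : Set (ℤ → T)} (hA : MeasurableSet A) (hB : MeasurableSet B) :
    Tendsto (fun n : ℕ => (iid ℤ lam).real (shiftZ^[n] ⁻¹' A ∩ B)) atTop
      (𝓝 ((iid ℤ lam).real A * (iid ℤ lam).real B)) := by
  classical
  set μ := iid ℤ lam with hμ
  rw [Metric.tendsto_atTop]
  intro ε hε
  set δ := ε / 5 with hδ
  have hδ0 : 0 < δ := by positivity
  obtain ⟨F, S, hS, hlt⟩ := approx lam hA (ENNReal.ofReal_pos.2 hδ0)
  obtain ⟨G, S', hS', hlt'⟩ := approx lam hB (ENNReal.ofReal_pos.2 hδ0)
  set C : Set (ℤ → T) := F.restrict ⁻¹' S with hC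
  set D : Set (ℤ → T) := G.restrict ⁻¹' S' with hD
  have hCm : MeasurableSet C := (Finset.measurable_restrict F) hS
  have hDm : MeasurableSet D := (Finset.measurable_restrict G) hS'
  have hdC : μ.real (C ∆ A) ≤ δ := by
    rw [measureReal_def]
    exact ENNReal.toReal_le_of_le_ofReal hδ0.le hlt.le
  have hdD : μ.real (D ∆ B) ≤ δ := by
    rw [measureReal_def]
    exact ENNReal.toReal_le_of_le_ofReal hδ0.le hlt'.le
  -- a bound for the coordinates
  obtain ⟨M, hM⟩ : ∃ M : ℕ, (∀ i ∈ F, |i| ≤ M) ∧ (∀ i ∈ G, |i| ≤ M) := by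
    refine ⟨(F ∪ G).sup (fun i => i.natAbs), ?_, ?_⟩
    · intro i hi
      have := Finset.le_sup (f := fun i : ℤ => i.natAbs) (Finset.mem_union_left G hi)
      rw [Int.abs_eq_natAbs]
      exact_mod_cast this
    · intro i hi
      have := Finset.le_sup (f := fun i : ℤ => i.natAbs) (Finset.mem_union_right F hi)
      rw [Int.abs_eq_natAbs]
      exact_mod_cast this
  refine ⟨2 * M + 1, fun n hn => ?_⟩
  have hmp := (shiftZ_mp lam).iterate n
  have hnot : ∀ k : F, ((k : ℤ) + n) ∉ G := by
    intro k hk
    have h1 := hM.1 k k.2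
    have h2 := hM.2 _ hk
    rw [abs_le] at h1 h2
    omega
  have hind := indep_coord lam G (fun k : F => (k : ℤ) + n) hnot Finset.univ
  have hind2 := hind.comp (φ := id) (ψ := fun z : (↥(Finset.univ : Finset F) → T) =>
    fun k : F => z ⟨k, Finset.mem_univ k⟩) measurable_id
    (measurable_pi_lambda _ fun k => measurable_pi_apply _)
  have e1 : μ.real (shiftZ^[n] ⁻¹' C ∩ D) = μ.real C * μ.real D := by
    have h3 := hind2.measure_inter_preimage_eq_mul S' S hS' hS
    have h4 : shiftZ^[n] ⁻¹' C = (fun x : ℤ → T => fun k : F => x ((k : ℤ) + n)) ⁻¹' S := by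
      ext x
      simp only [hC, Set.mem_preimage, shiftZ_iter]
      rfl
    have h5 : μ.real (shiftZ^[n] ⁻¹' C) = μ.real C := by
      rw [measureReal_def, hmp.measure_preimage hCm.nullMeasurableSet, measureReal_def]
    rw [← h5, mul_comm, Set.inter_comm, measureReal_def, h4, measureReal_def, measureReal_def,
      ← ENNReal.toReal_mul]
    exact congrArg ENNReal.toReal h3
  have hsub : ∀ X Y : Set (ℤ → T), μ.real X ≤ μ.real Y + μ.real (X \ Y) := by
    intro X Y
    calc μ.real X ≤ μ.real (Y ∪ (X \ Y)) := measureReal_mono (by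
          intro z hz; by_cases h : z ∈ Y <;> simp [h, hz])
      _ ≤ _ := measureReal_union_le _ _
  have hpre : μ.real (shiftZ^[n] ⁻¹' (C ∆ A)) ≤ δ := by
    rw [measureReal_def, hmp.measure_preimage (hCm.symmDiff hA).nullMeasurableSet,
      ← measureReal_def]
    exact hdC
  have hU : μ.real (shiftZ^[n] ⁻¹' (C ∆ A) ∪ (D ∆ B)) ≤ 2 * δ := by
    refine (measureReal_union_le _ _).trans ?_
    linarith
  have t1 : μ.real ((shiftZ^[n] ⁻¹' A ∩ B) \ (shiftZ^[n] ⁻¹' C ∩ D)) ≤ 2 * δ := by
    refine (measureReal_mono ?_).trans hU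
    intro ω hω
    simp only [Set.mem_sdiff, mem_inter_iff, mem_preimage, mem_union, Set.mem_symmDiff] at hω ⊢
    tauto
  have t2 : μ.real ((shiftZ^[n] ⁻¹' C ∩ D) \ (shiftZ^[n] ⁻¹' A ∩ B)) ≤ 2 * δ := by
    refine (measureReal_mono ?_).trans hU
    intro ω hω
    simp only [Set.mem_sdiff, mem_inter_iff, mem_preimage, mem_union, Set.mem_symmDiff] at hω ⊢
    tauto
  have s1 := hsub (shiftZ^[n] ⁻¹' A ∩ B) (shiftZ^[n] ⁻¹' C ∩ D)
  have s2 := hsub (shiftZ^[n] ⁻¹' C ∩ D) (shiftZ^[n] ⁻¹' A ∩ B)
  have e4 : |μ.real C - μ.real A| ≤ δ := by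
    have := abs_measureReal_sub_le_measureReal_symmDiff (μ := μ) hCm.nullMeasurableSet
      hA.nullMeasurableSet
    exact this.trans hdC
  have e5 : |μ.real D - μ.real B| ≤ δ := by
    have := abs_measureReal_sub_le_measureReal_symmDiff (μ := μ) hDm.nullMeasurableSet
      hB.nullMeasurableSet
    exact this.trans hdD
  have c0 : 0 ≤ μ.real C := measureReal_nonneg
  have c1 : μ.real C ≤ 1 := measureReal_le_one
  have b0 : 0 ≤ μ.real B := measureReal_nonneg
  have b1 : μ.real B ≤ 1 := measureReal_le_one
  have e6 : |μ.real C * μ.real D - μ.real A * μ.real B| ≤ 2 * δ := by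
    have : μ.real C * μ.real D - μ.real A * μ.real B =
        μ.real C * (μ.real D - μ.real B) + (μ.real C - μ.real A) * μ.real B := by ring
    rw [this]
    refine (abs_add_le _ _).trans ?_
    rw [abs_mul, abs_mul, abs_of_nonneg c0, abs_of_nonneg b0]
    nlinarith [abs_nonneg (μ.real D - μ.real B), abs_nonneg (μ.real C - μ.real A)]
  rw [Real.dist_eq]
  rw [e1] at s1 s2
  rw [e1] at *
  rw [abs_le] at e6
  rw [abs_lt]
  constructor <;> linarith

/-- mixing of the two-sided Bernoulli shift -/
theorem mixing {A B : Set (ℤ → T)} (hA : MeasurableSet A) (hB : MeasurableSet B) :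
    Tendsto (fun n : ℕ => (iid ℤ lam) (shiftZ^[n] ⁻¹' A ∩ B)) atTop
      (𝓝 ((iid ℤ lam) A * (iid ℤ lam) B)) := by
  have h := ENNReal.tendsto_ofReal (mixing_real lam hA hB)
  rw [ENNReal.ofReal_mul measureReal_nonneg, ofReal_measureReal, ofReal_measureReal] at h
  refine h.congr fun n => ?_
  rw [ofReal_measureReal]

end

end Pool.Agent.R203.Bern
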