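import Mathlib
import Pool.Agent.R203.Bern

/-!
# Transfinite diameters of the iterates of a set under a mixing map
-/

set_option autoImplicit false

open MeasureTheory Filter Topology Set
open scoped ENNReal

namespace Pool.Agent.R203.TD

open Pool.Agent.R203.Bern

section Defs

variable {S : Type} [MetricSpace S]

/-- `ρ_n(A)`: the supremum of `∏_{i<j} d(p_i,p_j)^{2/(n(n-1))}` over all `n`-tuples of points
of `A`. -/
noncomputable def rhoN (n : ℕ) (A : Set S) : ℝ≥0∞ :=
  ⨆ (p : Fin n → S) (_ : ∀ i, p i ∈ A),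
    ∏ i, ∏ j ∈ Finset.Ioi i, (edist (p i) (p j)) ^ ((2 : ℝ) / (n * (n - 1)))

/-- The transfinite diameter `ρ(A) = lim ρ_n(A)` (the sequence is non-increasing for `n ≥ 2`, so
that the limit is the upper limit). -/
noncomputable def rho (A : Set S) : ℝ≥0∞ := limsup (fun n : ℕ => rhoN n A) atTop

/-- The essential transfinite diameter: the infimum of `ρ(B)` over the measurable `B ⊆ A` with
`P(B) = P(A)`. -/
noncomputable def essRho [MeasurableSpace S] (P : Measure S) (A : Set S) : ℝ≥0∞ :=
  ⨅ (B : Set S) (_ : B ⊆ A ∧ MeasurableSet B ∧ P B = P A), rho B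

/-- All open balls are measurable and have positive measure. -/
def BallsPositive [MeasurableSpace S] (P : Measure S) : Prop :=
  ∀ (x : S) (r : ℝ), 0 < r → MeasurableSet (Metric.ball x r) ∧ 0 < P (Metric.ball x r)

/-- `ψ` preserves `P` and is mixing. -/
def IsMixing [MeasurableSpace S] (P : Measure S) (ψ : S → S) : Prop :=
  MeasurePreserving ψ P P ∧ ∀ A B : Set S, MeasurableSet A → MeasurableSet B →
    Tendsto (fun n : ℕ => P (ψ^[n] ⁻¹' A ∩ B)) atTop (𝓝 (P A * P B))

end Defs

/-- the underlying space: two-sided sequences of natural numbers -/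
def Sp : Type := ℤ → ℕ

instance : MeasurableSpace Sp := inferInstanceAs (MeasurableSpace (ℤ → ℕ))

/-- the size of the cell `x_0 = i` -/
noncomputable def w (i : ℕ) : ℝ := Real.exp (-(2 : ℝ) ^ (i + 1))

lemma w_pos (i : ℕ) : 0 < w i := Real.exp_pos _

lemma w_le (i : ℕ) : w i ≤ 1 := by
  unfold w
  rw [Real.exp_le_one_iff]
  simp only [Left.neg_nonpos_iff]
  positivity

/-- the least `|j|` with `x_j ≠ y_j` -/
noncomputable def lev (x y : Sp) : ℕ := sInf {k : ℕ | ∃ j : ℤ, j.natAbs = k ∧ x j ≠ y j}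

lemma lev_nonempty {x y : Sp} (h : x ≠ y) : {k : ℕ | ∃ j : ℤ, j.natAbs = k ∧ x j ≠ y j}.Nonempty := by
  obtain ⟨j, hj⟩ := Function.ne_iff.1 h
  exact ⟨_, j, rfl, hj⟩

lemma lev_mem {x y : Sp} (h : x ≠ y) : ∃ j : ℤ, j.natAbs = lev x y ∧ x j ≠ y j :=
  Nat.sInf_mem (lev_nonempty h)

lemma lev_le {x y : Sp} {j : ℤ} (h : x j ≠ y j) : lev x y ≤ j.natAbs :=
  Nat.sInf_le ⟨j, rfl, h⟩

lemma lev_comm (x y : Sp) : lev x y = lev y x := by
  unfold lev
  congr 1
  ext k
  simp only [mem_ofPred_eq, ne_comm]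

open Classical in
/-- the distance -/
noncomputable def D (x y : Sp) : ℝ :=
  if x = y then 0 else if x 0 = y 0 then w (x 0) * (1 / 2) ^ lev x y else 1

lemma D_self (x : Sp) : D x x = 0 := by unfold D; rw [if_pos rfl]

lemma D_comm (x y : Sp) : D x y = D y x := by
  unfold D
  by_cases h : x = y
  · rw [if_pos h, if_pos h.symm]
  · rw [if_neg h, if_neg (Ne.symm h)]
    by_cases h0 : x 0 = y 0
    · rw [if_pos h0, if_pos h0.symm, h0, lev_comm]
    · rw [if_neg h0, if_neg (Ne.symm h0)]

lemma D_nonneg (x y : Sp) : 0 ≤ D x y := by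
  unfold D
  split_ifs
  · exact le_rfl
  · have := w_pos (x 0); positivity
  · exact zero_le_one

lemma pow_half_le (n : ℕ) : (1 / 2 : ℝ) ^ n ≤ 1 := pow_le_one₀ (by norm_num) (by norm_num)

lemma D_cell {x y : Sp} (h : x 0 = y 0) : D x y ≤ w (x 0) := by
  unfold D
  split_ifs
  · exact (w_pos _).le
  · have := w_pos (x 0)
    have h2 := pow_half_le (lev x y)
    nlinarith

lemma D_le_one (x y : Sp) : D x y ≤ 1 := by
  by_cases h : x 0 = y 0
  · exact (D_cell h).trans (w_le _)
  · unfold D
    split_ifs <;> norm_num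

lemma D_ne {x y : Sp} (h : x 0 ≠ y 0) : D x y = 1 := by
  unfold D
  rw [if_neg (fun e => h (by rw [e])), if_neg h]

lemma D_pos {x y : Sp} (h : x ≠ y) : 0 < D x y := by
  unfold D
  rw [if_neg h]
  split_ifs
  · have := w_pos (x 0); positivity
  · exact one_pos

lemma D_tri (x y z : Sp) : D x z ≤ D x y + D y z := by
  by_cases hxy : x = y
  · rw [hxy, D_self, zero_add]
  by_cases hyz : y = z
  · rw [hyz, D_self, add_zero]
  by_cases h1 : x 0 = y 0
  · by_cases h2 : y 0 = z 0
    · by_cases hxz : x = z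
      · rw [hxz, D_self]
        exact add_nonneg (D_nonneg _ _) (D_nonneg _ _)
      · obtain ⟨j, hj, hne⟩ := lev_mem hxz
        have e1 : D x z = w (x 0) * (1 / 2) ^ lev x z := by
          unfold D; rw [if_neg hxz, if_pos (h1.trans h2)]
        have e2 : D x y = w (x 0) * (1 / 2) ^ lev x y := by
          unfold D; rw [if_neg hxy, if_pos h1]
        have e3 : D y z = w (x 0) * (1 / 2) ^ lev y z := by
          unfold D; rw [if_neg hyz, if_pos h2, h1]
        have hw := w_pos (x 0)
        by_cases h3 : x j = y j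
        · have h4 : lev y z ≤ lev x z := by
            rw [← hj]; exact lev_le (by rw [← h3]; exact hne)
          have h5 : (1 / 2 : ℝ) ^ lev x z ≤ (1 / 2) ^ lev y z :=
            pow_le_pow_of_le_one (by norm_num) (by norm_num) h4
          have h6 := D_nonneg x y
          rw [e1, e3]
          nlinarith
        · have h4 : lev x y ≤ lev x z := by
            rw [← hj]; exact lev_le h3
          have h5 : (1 / 2 : ℝ) ^ lev x z ≤ (1 / 2) ^ lev x y :=
            pow_le_pow_of_le_one (by norm_num) (by norm_num) h4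
          have h6 := D_nonneg y z
          rw [e1, e2]
          nlinarith
    · have := D_le_one x z
      have h3 := D_ne h2
      have h4 := D_nonneg x y
      linarith
  · have := D_le_one x z
    have h3 := D_ne h1
    have h4 := D_nonneg y z
    linarith

noncomputable instance : MetricSpace Sp where
  dist := D
  dist_self := D_self
  dist_comm := D_comm
  dist_triangle := D_tri
  eq_of_dist_eq_zero := by
    intro x y h
    by_contra hne
    exact (D_pos hne).ne' h

lemma dist_eq (x y : Sp) : dist x y = D x y := rfl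

/-- the description of the small balls -/
lemma ball_eq (x : Sp) {r : ℝ} (hr : 0 < r) (hr1 : r ≤ 1) : Metric.ball x r =
    {y : Sp | y 0 = x 0 ∧ ∀ j : ℤ, r ≤ w (x 0) * (1 / 2) ^ j.natAbs → y j = x j} := by
  ext y
  rw [Metric.mem_ball, dist_comm, dist_eq]
  constructor
  · intro h
    have h0 : x 0 = y 0 := by
      by_contra hne
      rw [D_ne hne] at h
      linarith
    refine ⟨h0.symm, fun j hj => ?_⟩
    by_contra hne
    have hxy : x ≠ y := fun e => hne (by rw [e])
    have h1 : D x y = w (x 0) * (1 / 2) ^ lev x y := by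
      unfold D; rw [if_neg hxy, if_pos h0]
    have h2 : lev x y ≤ j.natAbs := lev_le (Ne.symm hne)
    have h5 : (1 / 2 : ℝ) ^ j.natAbs ≤ (1 / 2) ^ lev x y :=
      pow_le_pow_of_le_one (by norm_num) (by norm_num) h2
    have hw := w_pos (x 0)
    rw [h1] at h
    nlinarith
  · rintro ⟨h0, hall⟩
    by_cases hxy : x = y
    · rw [hxy, D_self]; exact hr
    · obtain ⟨j, hj, hne⟩ := lev_mem hxy
      have h1 : D x y = w (x 0) * (1 / 2) ^ lev x y := by
        unfold D; rw [if_neg hxy, if_pos h0.symm]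
      rw [h1, ← hj]
      by_contra hcon
      push Not at hcon
      exact hne (hall j hcon).symm

/-- the one-dimensional marginal: a probability on `ℕ` which charges every point -/
noncomputable def p0 : Measure ℕ := ProbabilityTheory.poissonMeasure 1

instance : IsProbabilityMeasure p0 := by unfold p0; infer_instance

lemma p0_pos (n : ℕ) : 0 < p0 {n} := by
  unfold p0
  have h := ProbabilityTheory.poissonMeasure_real_singleton_pos (r := 1) n one_pos
  rw [measureReal_def, ENNReal.toReal_pos_iff] at h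
  exact h.1

/-- the Bernoulli measure -/
noncomputable def P : Measure Sp := iid ℤ p0

instance : IsProbabilityMeasure P := inferInstanceAs (IsProbabilityMeasure (iid ℤ p0))

/-- the shift -/
def psi : Sp → Sp := shiftZ (T := ℕ)

lemma psi_iter (n : ℕ) (x : Sp) : psi^[n] x = fun k : ℤ => x (k + n) := shiftZ_iter n x

theorem psi_mixing : IsMixing P psi :=
  ⟨shiftZ_mp p0, fun _ _ hA hB => mixing p0 hA hB⟩

lemma cyl_pos (x : Sp) (F : Finset ℤ) : 0 < P {y : Sp | ∀ j ∈ F, y j = x j} := by
  have h : {y : Sp | ∀ j ∈ F, y j = x j} = (↑F : Set ℤ).pi (fun j => ({x j} : Set ℕ)) := by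
    ext y
    exact Iff.rfl
  rw [h]
  have h2 := Measure.infinitePi_pi (fun _ : ℤ => p0) (s := F) (t := fun j => ({x j} : Set ℕ))
    (fun j _ => measurableSet_singleton _)
  change 0 < Measure.infinitePi (fun _ : ℤ => p0) _
  rw [h2]
  rw [pos_iff_ne_zero, Finset.prod_ne_zero_iff]
  exact fun j _ => (p0_pos _).ne'

theorem balls : BallsPositive P := by
  intro x r hr
  by_cases hr1 : r ≤ 1
  · rw [ball_eq x hr hr1]
    constructor
    · have : {y : Sp | y 0 = x 0 ∧ ∀ j : ℤ, r ≤ w (x 0) * (1 / 2) ^ j.natAbs → y j = x j} =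
          {y : Sp | y 0 = x 0} ∩ ⋂ j : ℤ, ⋂ _ : r ≤ w (x 0) * (1 / 2) ^ j.natAbs,
            {y : Sp | y j = x j} := by
        ext y
        simp
      rw [this]
      have hm : ∀ j : ℤ, MeasurableSet {y : Sp | y j = x j} := fun j =>
        (measurable_pi_apply (X := fun _ : ℤ => ℕ) j) (measurableSet_singleton (x j))
      exact (hm 0).inter (MeasurableSet.iInter fun j => MeasurableSet.iInter fun _ => hm j)
    · obtain ⟨N, hN⟩ := exists_pow_lt_of_lt_one hr (by norm_num : (1 / 2 : ℝ) < 1)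
      refine (cyl_pos x (Finset.Icc (-(N : ℤ)) N)).trans_le (measure_mono ?_)
      intro y hy
      simp only [mem_ofPred_eq, Finset.mem_Icc] at hy
      refine ⟨hy 0 (by omega), fun j hj => hy j ?_⟩
      have h1 : j.natAbs < N := by
        by_contra hcon
        push Not at hcon
        have h2 : (1 / 2 : ℝ) ^ j.natAbs ≤ (1 / 2) ^ N :=
          pow_le_pow_of_le_one (by norm_num) (by norm_num) hcon
        have h3 := w_le (x 0)
        have h4 := w_pos (x 0)
        have h5 : (0 : ℝ) < (1 / 2) ^ j.natAbs := by positivity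
        nlinarith
      omega
  · have : Metric.ball x r = univ := by
      ext y
      simp only [Metric.mem_ball, mem_univ, iff_true]
      rw [dist_eq]
      have := D_le_one y x
      linarith
    rw [this]
    exact ⟨MeasurableSet.univ, by simp⟩

lemma edist_eq (x y : Sp) : edist x y = ENNReal.ofReal (D x y) := by
  rw [edist_dist, dist_eq]

lemma expo_nonneg (n : ℕ) : (0 : ℝ) ≤ 2 / (n * (n - 1)) := by
  rcases n with _ | n
  · simp
  · push_cast
    have : (0 : ℝ) ≤ (n + 1) * (n + 1 - 1) := by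
      have : (0 : ℝ) ≤ n := Nat.cast_nonneg n
      nlinarith
    positivity

/-- constant sequences -/
def cst (i : ℕ) : Sp := fun _ : ℤ => i

theorem rhoN_univ (n : ℕ) : rhoN n (univ : Set Sp) = 1 := by
  apply le_antisymm
  · unfold rhoN
    refine iSup₂_le fun p _ => ?_
    refine Finset.prod_le_one' fun i _ => Finset.prod_le_one' fun j _ => ?_
    apply ENNReal.rpow_le_one _ (expo_nonneg n)
    rw [edist_eq]
    exact ENNReal.ofReal_le_one.2 (D_le_one _ _)
  · unfold rhoN
    refine le_iSup₂_of_le (fun i : Fin n => cst i) (fun _ => mem_univ _) ?_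
    apply le_of_eq
    symm
    apply Finset.prod_eq_one fun i _ => ?_
    apply Finset.prod_eq_one fun j hj => ?_
    have hij : i ≠ j := (Finset.mem_Ioi.1 hj).ne
    rw [edist_eq, D_ne, ENNReal.ofReal_one, ENNReal.one_rpow]
    intro h
    exact hij (Fin.ext h)

theorem rho_univ : rho (univ : Set Sp) = 1 := by
  unfold rho
  simp only [rhoN_univ]
  exact limsup_const 1

/-- the exponents of the sizes of the cells -/
noncomputable def L (i : ℕ) : ℝ := (2 : ℝ) ^ (i + 1)

lemma w_eq (i : ℕ) : w i = Real.exp (-(L i)) := rfl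

lemma sum_inv_L (K : ℕ) : ∑ c ∈ Finset.range (K + 1), (L c)⁻¹ ≤ 1 := by
  have : ∀ K : ℕ, ∑ c ∈ Finset.range K, (L c)⁻¹ = 1 - (1 / 2) ^ K := by
    intro K
    induction K with
    | zero => simp
    | succ K ih =>
      rw [Finset.sum_range_succ, ih]
      unfold L
      rw [pow_succ (1 / 2 : ℝ) K, pow_succ (2 : ℝ) K, one_div, inv_pow, mul_inv]
      ring
  rw [this]
  have : (0 : ℝ) < (1 / 2) ^ (K + 1) := by positivity
  linarith

open Classical in
/-- the energy of a configuration of `n` points in the first `K + 1` cells -/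
lemma energy {n K : ℕ} (c : Fin n → ℕ) (hc : ∀ i, c i ≤ K) :
    (n : ℝ) ^ 2 ≤ ∑ i, ∑ j, if c i = c j then L (c i) else 0 := by
  have hL : ∀ c, 0 < L c := fun c => by unfold L; positivity
  set N : ℕ → ℝ := fun a => ((Finset.univ.filter fun i : Fin n => c i = a).card : ℝ) with hN
  have hmaps : ∀ i ∈ (Finset.univ : Finset (Fin n)), c i ∈ Finset.range (K + 1) := fun i _ =>
    Finset.mem_range.2 (by have := hc i; omega)
  have h1 : ∑ a ∈ Finset.range (K + 1), N a = n := by
    have := Finset.card_eq_sum_card_fiberwise (f := c) (s := Finset.univ)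
      (t := Finset.range (K + 1)) (by intro i hi; exact hmaps i (Finset.mem_univ i))
    rw [Finset.card_univ, Fintype.card_fin] at this
    simp only [hN]
    exact_mod_cast this.symm
  have h2 : ∑ i, ∑ j, (if c i = c j then L (c i) else 0) =
      ∑ a ∈ Finset.range (K + 1), N a ^ 2 / (L a)⁻¹ := by
    have h3 : ∀ i : Fin n, ∑ j, (if c i = c j then L (c i) else 0) = N (c i) * L (c i) := by
      intro i
      rw [← Finset.sum_filter, Finset.sum_const, nsmul_eq_mul]
      simp only [hN, eq_comm]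
    simp only [h3]
    rw [← Finset.sum_fiberwise_of_maps_to hmaps]
    apply Finset.sum_congr rfl
    intro a _
    have h4 : ∀ i ∈ Finset.univ.filter (fun i : Fin n => c i = a), N (c i) * L (c i) = N a * L a := by
      intro i hi
      rw [(Finset.mem_filter.1 hi).2]
    rw [Finset.sum_congr rfl h4, Finset.sum_const, nsmul_eq_mul, div_inv_eq_mul]
    simp only [hN]
    ring
  rw [h2]
  have h5 := Finset.sq_sum_div_le_sum_sq_div (Finset.range (K + 1)) N
    (g := fun a => (L a)⁻¹) (fun a _ => inv_pos.2 (hL a))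
  refine le_trans ?_ h5
  rw [h1, le_div_iff₀ (Finset.sum_pos (fun a _ => inv_pos.2 (hL a)) ⟨0, by simp⟩)]
  have := sum_inv_L K
  have h6 : (0 : ℝ) ≤ (n : ℝ) ^ 2 := by positivity
  nlinarith

theorem rhoN_cells {n K : ℕ} (hn : 2 ≤ n) {A : Set Sp} (hA : ∀ x ∈ A, x 0 ≤ K) :
    rhoN n A ≤ ENNReal.ofReal (Real.exp (-((n - L K) / (n - 1)))) := by
  classical
  unfold rhoN
  refine iSup₂_le fun p hp => ?_
  set c : Fin n → ℕ := fun i => p i 0 with hc
  set g : Fin n → Fin n → ℝ := fun i j => if c i = c j then L (c i) else 0 with hg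
  have hcK : ∀ i, c i ≤ K := fun i => hA _ (hp i)
  have hn1 : (0 : ℝ) < n - 1 := by
    have : (2 : ℝ) ≤ n := by exact_mod_cast hn
    linarith
  have hn0 : (0 : ℝ) < n := by linarith
  have hfac : ∀ i j : Fin n, (edist (p i) (p j)) ^ ((2 : ℝ) / (n * (n - 1))) ≤
      ENNReal.ofReal (Real.exp (-(g i j) * (2 / (n * (n - 1))))) := by
    intro i j
    rw [Real.exp_mul, ← ENNReal.ofReal_rpow_of_pos (Real.exp_pos _)]
    apply ENNReal.rpow_le_rpow _ (expo_nonneg n)
    rw [edist_eq]
    apply ENNReal.ofReal_le_ofReal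
    simp only [hg]
    split_ifs with h
    · rw [← w_eq]
      exact D_cell h
    · rw [neg_zero, Real.exp_zero]
      exact D_le_one _ _
  have h1 : ∏ i, ∏ j ∈ Finset.Ioi i, (edist (p i) (p j)) ^ ((2 : ℝ) / (n * (n - 1))) ≤
      ∏ i, ∏ j ∈ Finset.Ioi i, ENNReal.ofReal (Real.exp (-(g i j) * (2 / (n * (n - 1))))) :=
    Finset.prod_le_prod' fun i _ => Finset.prod_le_prod' fun j _ => hfac i j
  refine h1.trans ?_
  have h2 : ∏ i, ∏ j ∈ Finset.Ioi i, ENNReal.ofReal (Real.exp (-(g i j) * (2 / (n * (n - 1))))) =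
      ENNReal.ofReal (Real.exp (∑ i, ∑ j ∈ Finset.Ioi i, (-(g i j) * (2 / (n * (n - 1)))))) := by
    rw [Real.exp_sum, ENNReal.ofReal_prod_of_nonneg (fun i _ => (Real.exp_pos _).le)]
    apply Finset.prod_congr rfl
    intro i _
    rw [Real.exp_sum, ENNReal.ofReal_prod_of_nonneg (fun i _ => (Real.exp_pos _).le)]
  rw [h2]
  apply ENNReal.ofReal_le_ofReal
  apply Real.exp_le_exp.2
  have hsymm : ∀ i j, g i j = g j i := by
    intro i j
    simp only [hg]
    by_cases h : c i = c j
    · rw [if_pos h, if_pos h.symm, h]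
    · rw [if_neg h, if_neg (Ne.symm h)]
  have h3 : 2 * ∑ i, ∑ j ∈ Finset.Ioi i, g i j = ∑ i, ∑ j, g i j - ∑ i, g i i := by
    have e1 := Finset.sum_sum_Ioi_add_eq_sum_sum_off_diag (fun i j => g i j)
    have e2 : ∑ i, ∑ j ∈ Finset.Ioi i, (g j i + g i j) = 2 * ∑ i, ∑ j ∈ Finset.Ioi i, g i j := by
      rw [Finset.mul_sum]
      apply Finset.sum_congr rfl
      intro i _
      rw [Finset.mul_sum]
      apply Finset.sum_congr rfl
      intro j _
      rw [hsymm j i]
      ring
    rw [e2] at e1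
    rw [e1, ← Finset.sum_sub_distrib]
    apply Finset.sum_congr rfl
    intro i _
    rw [← Finset.sum_compl_add_sum {i}, Finset.sum_singleton]
    rw [add_sub_cancel_right]
    apply Finset.sum_congr rfl
    intro j _
    exact hsymm j i
  have h4 := energy c hcK
  have h5 : ∑ i, g i i ≤ n * L K := by
    have : ∀ i ∈ (Finset.univ : Finset (Fin n)), g i i ≤ L K := by
      intro i _
      simp only [hg, if_true]
      unfold L
      exact pow_le_pow_right₀ (by norm_num) (by have := hcK i; omega)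
    refine (Finset.sum_le_card_nsmul _ _ _ this).trans ?_
    rw [Finset.card_univ, Fintype.card_fin, nsmul_eq_mul]
  have h6 : ∑ i, ∑ j ∈ Finset.Ioi i, (-(g i j) * (2 / (n * (n - 1)))) =
      -((2 * ∑ i, ∑ j ∈ Finset.Ioi i, g i j) / (n * (n - 1))) := by
    simp only [Finset.mul_sum, Finset.sum_div, ← Finset.sum_neg_distrib]
    apply Finset.sum_congr rfl
    intro i _
    apply Finset.sum_congr rfl
    intro j _
    ring
  rw [h6, h3, neg_le_neg_iff, div_le_div_iff₀ hn1 (by positivity)]
  have h7 : (n : ℝ) ^ 2 - n * L K ≤ ∑ i, ∑ j, g i j - ∑ i, g i i := by linarith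
  have h8 := mul_le_mul_of_nonneg_right h7 hn1.le
  calc ((n : ℝ) - L K) * (n * (n - 1)) = ((n : ℝ) ^ 2 - n * L K) * (n - 1) := by ring
    _ ≤ _ := h8

theorem rho_cells {K : ℕ} {A : Set Sp} (hA : ∀ x ∈ A, x 0 ≤ K) :
    rho A ≤ ENNReal.ofReal (Real.exp (-1)) := by
  have h1 : Tendsto (fun n : ℕ => ENNReal.ofReal (Real.exp (-(((n : ℝ) - L K) / (n - 1))))) atTop
      (𝓝 (ENNReal.ofReal (Real.exp (-1)))) := by
    apply ENNReal.tendsto_ofReal
    apply (Real.continuous_exp.tendsto _).comp
    apply Tendsto.neg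
    have h2 : Tendsto (fun n : ℕ => 1 + (1 - L K) * ((n : ℝ) - 1)⁻¹) atTop (𝓝 (1 + (1 - L K) * 0)) := by
      apply tendsto_const_nhds.add
      apply tendsto_const_nhds.mul
      apply tendsto_inv_atTop_zero.comp
      exact tendsto_atTop_add_const_right _ (-1) tendsto_natCast_atTop_atTop
    rw [mul_zero, add_zero] at h2
    refine h2.congr' ?_
    filter_upwards [eventually_ge_atTop 2] with n hn
    have : (2 : ℝ) ≤ n := by exact_mod_cast hn
    field_simp
    have h3 : (n : ℝ) - 1 ≠ 0 := by linarith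
    field_simp
    ring
  unfold rho
  rw [← h1.limsup_eq]
  apply limsup_le_limsup
  · filter_upwards [eventually_ge_atTop 2] with n hn
    exact rhoN_cells hn hA
  all_goals isBoundedDefault

/-- there are levels `K n` such that the probability of exceeding them is summable -/
lemma exists_levels : ∃ K : ℕ → ℕ, ∀ n, p0 (Ioi (K n)) ≤ (1 / 4) * (1 / 2) ^ n := by
  have h : Tendsto (fun k : ℕ => p0 (Ioi k)) atTop (𝓝 0) := by
    have h1 : Tendsto (fun k : ℕ => p0 (Ioi k)) atTop (𝓝 (p0 (⋂ k : ℕ, Ioi k))) := by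
      apply tendsto_measure_iInter_atTop
      · exact fun k => measurableSet_Ioi.nullMeasurableSet
      · exact fun a b hab => Ioi_subset_Ioi hab
      · exact ⟨0, measure_ne_top _ _⟩
    have h2 : (⋂ k : ℕ, Ioi k) = (∅ : Set ℕ) := by
      ext m
      simp only [mem_iInter, mem_Ioi, mem_empty_iff_false, iff_false, not_forall, not_lt]
      exact ⟨m, le_rfl⟩
    rwa [h2, measure_empty] at h1
  have h2 : ∀ n : ℕ, ∃ k : ℕ, p0 (Ioi k) ≤ (1 / 4) * (1 / 2) ^ n := by
    intro n
    have hpos : (0 : ℝ≥0∞) < (1 / 4) * (1 / 2) ^ n := by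
      apply ENNReal.mul_pos
      · simp
      · apply pow_ne_zero; simp
    exact ((ENNReal.tendsto_nhds_zero.1 h) _ hpos).exists
  choose K hK using h2
  exact ⟨K, hK⟩

/-- the set `A = {x : x_n ≤ K n for all n ≥ 0}` -/
def setA (K : ℕ → ℕ) : Set Sp := {x | ∀ n : ℕ, x (n : ℤ) ≤ K n}

lemma setA_meas (K : ℕ → ℕ) : MeasurableSet (setA K) := by
  have : setA K = ⋂ n : ℕ, {x : Sp | x (n : ℤ) ≤ K n} := by
    ext x; simp [setA]
  rw [this]
  exact MeasurableSet.iInter fun n =>
    (measurable_pi_apply (X := fun _ : ℤ => ℕ) (n : ℤ)) measurableSet_Iic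

lemma setA_pos {K : ℕ → ℕ} (hK : ∀ n, p0 (Ioi (K n)) ≤ (1 / 4) * (1 / 2) ^ n) :
    0 < P (setA K) := by
  have h1 : P (setA K)ᶜ ≤ 1 / 2 := by
    have e : (setA K)ᶜ = ⋃ n : ℕ, {x : Sp | x (n : ℤ) ∈ Ioi (K n)} := by
      ext x
      simp only [setA, mem_compl_iff, mem_ofPred_eq, not_forall, not_le, mem_iUnion, mem_Ioi]
    rw [e]
    refine (measure_iUnion_le _).trans ?_
    have h2 : ∀ n : ℕ, P {x : Sp | x (n : ℤ) ∈ Ioi (K n)} = p0 (Ioi (K n)) := by
      intro n
      have h3 := Measure.infinitePi_map_eval (fun _ : ℤ => p0) (n : ℤ)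
      rw [← h3, Measure.map_apply (measurable_pi_apply _) measurableSet_Ioi]
      rfl
    simp only [h2]
    refine (ENNReal.tsum_le_tsum hK).trans ?_
    rw [ENNReal.tsum_mul_left]
    have h4 : ∑' n : ℕ, (1 / 2 : ℝ≥0∞) ^ n = 2 := by
      rw [ENNReal.tsum_geometric, one_div, ENNReal.one_sub_inv_two, inv_inv]
    rw [h4]
    have : (1 / 4 : ℝ≥0∞) * 2 = ENNReal.ofReal (1 / 2) := by
      have e1 : (1 / 4 : ℝ≥0∞) = ENNReal.ofReal (1 / 4) := by
        rw [ENNReal.ofReal_div_of_pos (by norm_num)]; simp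
      have e2 : (2 : ℝ≥0∞) = ENNReal.ofReal 2 := by simp
      rw [e1, e2, ← ENNReal.ofReal_mul (by norm_num)]
      norm_num
    rw [this, ENNReal.ofReal_div_of_pos (by norm_num)]
    simp
  rw [pos_iff_ne_zero]
  intro h0
  have h2 := prob_add_prob_compl (μ := P) (setA_meas K)
  rw [h0, zero_add] at h2
  rw [h2] at h1
  norm_num at h1

lemma iterate_cells (K : ℕ → ℕ) (n : ℕ) : ∀ x ∈ psi^[n] '' setA K, x 0 ≤ K n := by
  rintro _ ⟨x, hx, rfl⟩
  rw [psi_iter]
  have := hx n
  simpa using this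

theorem images_measurable (B : Set Sp) (hB : MeasurableSet B) : MeasurableSet (psi '' B) := by
  have hinv : Measurable (fun x : Sp => ((fun k : ℤ => x (k - 1)) : Sp)) :=
    measurable_pi_lambda _ fun k => measurable_pi_apply (X := fun _ : ℤ => ℕ) (k - 1)
  have e : psi '' B = (fun x : Sp => ((fun k : ℤ => x (k - 1)) : Sp)) ⁻¹' B := by
    ext x
    constructor
    · rintro ⟨y, hy, rfl⟩
      have h1 : ((fun k : ℤ => psi y (k - 1)) : Sp) = y := by
        funext k
        change y (k - 1 + 1) = y k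
        simp
      rw [mem_preimage]
      exact h1.symm ▸ hy
    · intro hx
      refine ⟨_, hx, ?_⟩
      funext k
      change x (k + 1 - 1) = x k
      simp
  rw [e]
  exact hinv hB

end Pool.Agent.R203.TD
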