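import Mathlib

/-!
# Uniform convergence of Birkhoff averages for uniquely ergodic systems
-/

set_option autoImplicit false

open MeasureTheory Filter Topology Set BoundedContinuousFunction

namespace Pool.Agent.R203.UE

universe u

variable {X : Type u} [MetricSpace X] [CompactSpace X] [MeasurableSpace X] [BorelSpace X]

/-- the empirical measure -/
noncomputable def emp (T : X → X) (L : ℕ) (y : X) : Measure X :=
  ((L : ENNReal))⁻¹ • ∑ j ∈ Finset.range L, Measure.dirac (T^[j] y)

lemma emp_prob (T : X → X) {L : ℕ} (hL : 0 < L) (y : X) : IsProbabilityMeasure (emp T L y) := by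
  constructor
  simp only [emp, Measure.smul_apply, Measure.coe_finsetSum, Finset.sum_apply, measure_univ,
    Finset.sum_const, Finset.card_range, smul_eq_mul, nsmul_eq_mul, mul_one]
  exact ENNReal.inv_mul_cancel (by exact_mod_cast hL.ne') (ENNReal.natCast_ne_top _)

lemma emp_integral (T : X → X) (L : ℕ) (y : X) {φ : X → ℝ} (hφ : Continuous φ) :
    ∫ x, φ x ∂(emp T L y) = 1 / (L : ℝ) * ∑ j ∈ Finset.range L, φ (T^[j] y) := by
  rw [emp, integral_smul_measure, integral_finsetSum_measure]
  · simp only [integral_dirac, ENNReal.toReal_inv, ENNReal.toReal_natCast, smul_eq_mul, one_div]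
  · intro j _
    exact integrable_dirac (by simp)

lemma telescoping (T : X → X) (φ : X → ℝ) (y : X) (L : ℕ) :
    ∑ j ∈ Finset.range L, φ (T (T^[j] y)) - ∑ j ∈ Finset.range L, φ (T^[j] y) =
      φ (T^[L] y) - φ y := by
  rw [← Finset.sum_sub_distrib]
  have : ∀ j, φ (T (T^[j] y)) - φ (T^[j] y) = φ (T^[j + 1] y) - φ (T^[j] y) := by
    intro j
    rw [Function.iterate_succ_apply']
  simp only [this]
  exact Finset.sum_range_sub (fun j => φ (T^[j] y)) L

/-- **Uniform convergence of Birkhoff averages.** -/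
theorem unif {T : X → X} (hT : Continuous T) {μ : Measure X}
    (huniq : ∀ ν : Measure X, IsProbabilityMeasure ν → MeasurePreserving T ν ν → ν = μ)
    {φ : X → ℝ} (hφ : Continuous φ) {ε : ℝ} (hε : 0 < ε) :
    ∃ L0 : ℕ, ∀ L ≥ L0, ∀ y : X,
      |1 / (L : ℝ) * ∑ j ∈ Finset.range L, φ (T^[j] y) - ∫ x, φ x ∂μ| < ε := by
  by_contra hcon
  push Not at hcon
  choose L hL y hy using fun i : ℕ => hcon (i + 1)
  have hLpos : ∀ i, 0 < L i := fun i => (Nat.succ_pos i).trans_le (hL i)
  let ν : ℕ → ProbabilityMeasure X := fun i => ⟨emp T (L i) (y i), emp_prob T (hLpos i) (y i)⟩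
  let U : Ultrafilter ℕ := Ultrafilter.of atTop
  have hU : (U : Filter ℕ) ≤ atTop := Ultrafilter.of_le _
  obtain ⟨ν', -, hν'⟩ := isCompact_univ.ultrafilter_le_nhds (U.map ν) (by simp)
  have hconv : Tendsto ν U (𝓝 ν') := hν'
  have hint := ProbabilityMeasure.tendsto_iff_forall_integral_tendsto.1 hconv
  have hLinf : Tendsto (fun i => (L i : ℝ)) U atTop := by
    have h1 : Tendsto L atTop atTop := by
      refine tendsto_atTop_mono (fun i => ?_) tendsto_id
      have := hL i
      simp only [id]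
      omega
    exact (tendsto_natCast_atTop_atTop.comp h1).mono_left hU
  have hinv : MeasurePreserving T (ν' : Measure X) (ν' : Measure X) := by
    refine ⟨hT.measurable, ?_⟩
    have : IsProbabilityMeasure (Measure.map T (ν' : Measure X)) :=
      Measure.isProbabilityMeasure_map hT.measurable.aemeasurable
    apply ext_of_forall_integral_eq_of_IsFiniteMeasure
    intro f
    rw [integral_map hT.measurable.aemeasurable f.continuous.aestronglyMeasurable]
    let f' : X →ᵇ ℝ := f.compContinuous ⟨T, hT⟩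
    have h1 := hint f'
    have h2 := hint f
    have h3 : Tendsto (fun i => ∫ x, f' x ∂(ν i : Measure X) - ∫ x, f x ∂(ν i : Measure X)) U
        (𝓝 0) := by
      have hb : ∀ i, |∫ x, f' x ∂(ν i : Measure X) - ∫ x, f x ∂(ν i : Measure X)| ≤
          2 * ‖f‖ / L i := by
        intro i
        change |∫ x, f' x ∂(emp T (L i) (y i)) - ∫ x, f x ∂(emp T (L i) (y i))| ≤ _
        rw [emp_integral _ _ _ f'.continuous, emp_integral _ _ _ f.continuous, ← mul_sub]
        have e : ∑ j ∈ Finset.range (L i), f' (T^[j] (y i)) -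
            ∑ j ∈ Finset.range (L i), f (T^[j] (y i)) = f (T^[L i] (y i)) - f (y i) :=
          telescoping T f (y i) (L i)
        rw [e, abs_mul, abs_of_nonneg (by positivity : (0 : ℝ) ≤ 1 / (L i : ℝ))]
        have h4 : |f (T^[L i] (y i)) - f (y i)| ≤ 2 * ‖f‖ := by
          rw [← Real.norm_eq_abs]
          refine (norm_sub_le _ _).trans ?_
          linarith [f.norm_coe_le_norm (T^[L i] (y i)), f.norm_coe_le_norm (y i)]
        calc 1 / (L i : ℝ) * |f (T^[L i] (y i)) - f (y i)| ≤ 1 / (L i : ℝ) * (2 * ‖f‖) :=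
              mul_le_mul_of_nonneg_left h4 (by positivity)
          _ = 2 * ‖f‖ / L i := by ring
      have hz : Tendsto (fun i => 2 * ‖f‖ / (L i : ℝ)) U (𝓝 0) :=
        hLinf.const_div_atTop _
      exact squeeze_zero_norm (fun i => by rw [Real.norm_eq_abs]; exact hb i) hz
    have h4 := tendsto_nhds_unique h3 (h1.sub h2)
    have h5 : ∫ x, f' x ∂(ν' : Measure X) = ∫ x, f x ∂(ν' : Measure X) := by linarith
    exact h5
  have hνμ : (ν' : Measure X) = μ := huniq _ inferInstance hinv
  let φ' : X →ᵇ ℝ := BoundedContinuousFunction.mkOfCompact ⟨φ, hφ⟩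
  have h1 := hint φ'
  rw [hνμ] at h1
  have h2 : Tendsto (fun i => |1 / (L i : ℝ) * ∑ j ∈ Finset.range (L i), φ (T^[j] (y i)) -
      ∫ x, φ x ∂μ|) U (𝓝 |∫ x, φ x ∂μ - ∫ x, φ x ∂μ|) := by
    refine (Tendsto.sub_const ?_ _).abs
    refine h1.congr fun i => ?_
    exact emp_integral T (L i) (y i) hφ
  rw [sub_self, abs_zero] at h2
  have h3 : ε ≤ 0 := ge_of_tendsto' h2 fun i => hy i
  linarith

end Pool.Agent.R203.UE
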