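import Mathlib

/-!
# Under-recurrent sets are mixing for themselves
-/

set_option autoImplicit false
open MeasureTheory Filter Topology

namespace Pool.Agent.R203.UnderRec

section Hilbert

variable {H : Type*} [NormedAddCommGroup H] [InnerProductSpace ℝ H]

lemma iter_norm (U : H →ₗᵢ[ℝ] H) (n : ℕ) (x : H) : ‖U^[n] x‖ = ‖x‖ := by
  induction n generalizing x with
  | zero => rfl
  | succ n ih => rw [Function.iterate_succ_apply, ih, U.norm_map]

lemma inner_shift (U : H →ₗᵢ[ℝ] H) (G : H) (m n : ℕ) :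
    inner ℝ (U^[m + n] G) (U^[m] G) = inner ℝ (U^[n] G) G := by
  induction m with
  | zero => simp
  | succ m ih =>
    rw [show m + 1 + n = (m + n) + 1 by ring, Function.iterate_succ_apply',
      Function.iterate_succ_apply', U.inner_map_map, ih]

lemma corr_zero (U : H →ₗᵢ[ℝ] H) (G : H) (hc : ∀ n, 1 ≤ n → inner ℝ (U^[n] G) G ≤ 0) :
    Tendsto (fun n : ℕ => inner ℝ (U^[n] G) G) atTop (𝓝 0) := by
  set c : ℕ → ℝ := fun n => inner ℝ (U^[n] G) G with hcdef
  set C : ℕ → ℝ := fun N => ∑ j ∈ Finset.range N, c (j + 1) with hC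
  set P : ℕ → H := fun N => ∑ i ∈ Finset.range N, U^[i] G with hP
  have hrec : ∀ N, ‖P (N + 1)‖ ^ 2 = ‖P N‖ ^ 2 + (‖G‖ ^ 2 + 2 * C N) := by
    intro N
    have e : P (N + 1) = P N + U^[N] G := Finset.sum_range_succ _ _
    rw [e, norm_add_sq_real, iter_norm]
    have h1 : inner ℝ (P N) (U^[N] G) = C N := by
      rw [hP, hC]
      simp only
      rw [sum_inner, ← Finset.sum_range_reflect]
      refine Finset.sum_congr rfl fun j hj => ?_
      have hj' := Finset.mem_range.1 hj
      rw [real_inner_comm]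
      have := inner_shift U G (N - 1 - j) (j + 1)
      rw [show N - 1 - j + (j + 1) = N by omega] at this
      exact this
    rw [h1]
    ring
  have hCmono : ∀ N k, C (N + k) ≤ C N := by
    intro N k
    induction k with
    | zero => exact le_rfl
    | succ k ih =>
      have : C (N + (k + 1)) = C (N + k) + c (N + k + 1) := Finset.sum_range_succ _ _
      rw [this]
      have h2 := hc (N + k + 1) (by omega)
      simp only [hcdef] at h2 ⊢
      linarith
  have hbound : ∀ N, -(‖G‖ ^ 2 / 2) ≤ C N := by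
    intro N
    by_contra hcon
    push Not at hcon
    set η := -(‖G‖ ^ 2 + 2 * C N) with hη
    have hη0 : 0 < η := by rw [hη]; linarith
    have hdec : ∀ k : ℕ, ‖P (N + k)‖ ^ 2 ≤ ‖P N‖ ^ 2 - k * η := by
      intro k
      induction k with
      | zero => simp
      | succ k ih =>
        have h1 := hrec (N + k)
        have h2 := hCmono N k
        rw [show N + (k + 1) = N + k + 1 by ring, h1]
        push_cast
        rw [hη] at ih ⊢
        linarith
    obtain ⟨k, hk⟩ := exists_nat_gt (‖P N‖ ^ 2 / η)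
    rw [div_lt_iff₀ hη0] at hk
    have h1 := hdec k
    have h2 : 0 ≤ ‖P (N + k)‖ ^ 2 := by positivity
    linarith
  have hsum : Summable fun j => -c (j + 1) := by
    refine summable_of_sum_range_le (c := ‖G‖ ^ 2 / 2) (fun j => ?_) fun N => ?_
    · have := hc (j + 1) (by omega)
      simp only [hcdef]
      linarith
    · have := hbound N
      rw [Finset.sum_neg_distrib]
      simp only [hC] at this
      linarith
  have h1 := hsum.tendsto_atTop_zero
  have h2 : Tendsto (fun j => c (j + 1)) atTop (𝓝 0) := by simpa using h1.neg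
  exact (tendsto_add_atTop_iff_nat 1).1 h2

theorem hilbert_mix [CompleteSpace H] (U : H →ₗᵢ[ℝ] H) (G : H)
    (hc : ∀ n, 1 ≤ n → inner ℝ (U^[n] G) G ≤ 0) (h : H) :
    Tendsto (fun n : ℕ => inner ℝ (U^[n] G) h) atTop (𝓝 0) := by
  have h0 := corr_zero U G hc
  set M0 : Submodule ℝ H := Submodule.span ℝ (Set.range fun m : ℕ => U^[m] G) with hM0
  have hspan : ∀ a ∈ M0, Tendsto (fun n : ℕ => inner ℝ (U^[n] G) a) atTop (𝓝 0) := by
    intro a ha
    induction ha using Submodule.span_induction with
    | mem x hx =>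
      obtain ⟨m, rfl⟩ := hx
      rw [← tendsto_add_atTop_iff_nat m]
      refine h0.congr fun n => ?_
      have := inner_shift U G m n
      rw [add_comm m n] at this
      exact this.symm
    | zero => simp
    | add x y _ _ hx hy =>
      have := hx.add hy
      rw [add_zero] at this
      refine this.congr fun n => ?_
      rw [inner_add_right]
    | smul r x _ hx =>
      have := hx.const_mul r
      rw [mul_zero] at this
      refine this.congr fun n => ?_
      rw [inner_smul_right]
  set M : Submodule ℝ H := M0.topologicalClosure with hM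
  have hMc : IsClosed (M : Set H) := M0.isClosed_topologicalClosure
  have : CompleteSpace M := hMc.completeSpace_coe
  obtain ⟨a, ha, b, hb, hab⟩ := M.exists_add_mem_mem_orthogonal h
  have hmem : ∀ n, U^[n] G ∈ M := fun n =>
    M0.le_topologicalClosure (Submodule.subset_span ⟨n, rfl⟩)
  have hb0 : ∀ n, inner ℝ (U^[n] G) b = 0 := fun n =>
    (Submodule.mem_orthogonal M b).1 hb _ (hmem n)
  have e : ∀ n, inner ℝ (U^[n] G) h = inner ℝ (U^[n] G) a := by
    intro n
    rw [hab, inner_add_right, hb0, add_zero]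
  simp only [e]
  rw [Metric.tendsto_atTop]
  intro ε hε
  have ha' : a ∈ closure (M0 : Set H) := ha
  obtain ⟨a', ha'M, hd⟩ := Metric.mem_closure_iff.1 ha' (ε / (2 * (‖G‖ + 1))) (by positivity)
  obtain ⟨N, hN⟩ := Metric.tendsto_atTop.1 (hspan a' ha'M) (ε / 2) (by positivity)
  refine ⟨N, fun n hn => ?_⟩
  have h1 := hN n hn
  rw [Real.dist_eq, sub_zero] at h1 ⊢
  have h2 : inner ℝ (U^[n] G) a = inner ℝ (U^[n] G) (a - a') + inner ℝ (U^[n] G) a' := by
    rw [← inner_add_right, sub_add_cancel]
  have h3 : |inner ℝ (U^[n] G) (a - a')| ≤ ‖G‖ * (ε / (2 * (‖G‖ + 1))) := by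
    refine (abs_real_inner_le_norm _ _).trans ?_
    rw [iter_norm]
    rw [dist_eq_norm] at hd
    exact mul_le_mul_of_nonneg_left hd.le (norm_nonneg _)
  have h4 : ‖G‖ * (ε / (2 * (‖G‖ + 1))) ≤ ε / 2 := by
    rw [mul_div_assoc', div_le_div_iff₀ (by positivity) (by norm_num)]
    nlinarith [norm_nonneg G]
  rw [h2]
  calc |inner ℝ (U^[n] G) (a - a') + inner ℝ (U^[n] G) a'|
      ≤ |inner ℝ (U^[n] G) (a - a')| + |inner ℝ (U^[n] G) a'| := abs_add_le _ _
    _ < ε := by linarith

end Hilbert

/-- an under-recurrent set is asymptotically independent of every set -/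
theorem set_mix {X : Type*} [MeasurableSpace X] (μ : Measure X) [IsProbabilityMeasure μ]
    {T : X → X} (hT : MeasurePreserving T μ μ) {A : Set X} (hA : MeasurableSet A)
    (hur : ∀ n, 1 ≤ n → μ.real (A ∩ T^[n] ⁻¹' A) ≤ μ.real A ^ 2) {B : Set X}
    (hB : MeasurableSet B) :
    Tendsto (fun n : ℕ => μ.real (T^[n] ⁻¹' A ∩ B)) atTop (𝓝 (μ.real A * μ.real B)) := by
  let x : Lp ℝ 2 μ := indicatorConstLp 2 hA (measure_ne_top μ A) (1 : ℝ)
  let b : Lp ℝ 2 μ := indicatorConstLp 2 hB (measure_ne_top μ B) (1 : ℝ)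
  let o : Lp ℝ 2 μ := indicatorConstLp 2 MeasurableSet.univ (measure_ne_top μ Set.univ) (1 : ℝ)
  let U : Lp ℝ 2 μ →ₗᵢ[ℝ] Lp ℝ 2 μ := Lp.compMeasurePreservingₗᵢ ℝ T hT
  have hUx : ∀ n, U^[n] x = indicatorConstLp 2 ((hT.iterate n).measurable hA)
      (measure_ne_top μ _) (1 : ℝ) := by
    intro n
    have h1 : U^[n] x = (Lp.compMeasurePreserving (E := ℝ) (p := 2) T hT)^[n] x := rfl
    rw [h1, Lp.compMeasurePreserving_iterate]
    exact Lp.indicatorConstLp_compMeasurePreserving (p := 2) (μ := μ) (μb := μ)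
      (c := (1 : ℝ)) hA (measure_ne_top μ A) (hT.iterate n)
  have hUo : ∀ n, U^[n] o = o := by
    intro n
    have h1 : U^[n] o = (Lp.compMeasurePreserving (E := ℝ) (p := 2) T hT)^[n] o := rfl
    rw [h1, Lp.compMeasurePreserving_iterate]
    have := Lp.indicatorConstLp_compMeasurePreserving (p := 2) (μ := μ) (μb := μ)
      (c := (1 : ℝ)) MeasurableSet.univ (measure_ne_top μ Set.univ) (hT.iterate n)
    exact this
  have hinner : ∀ (C D : Set X) (hC : MeasurableSet C) (hD : MeasurableSet D),
      inner ℝ (indicatorConstLp 2 hC (measure_ne_top μ C) (1 : ℝ))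
        (indicatorConstLp 2 hD (measure_ne_top μ D) (1 : ℝ)) = μ.real (C ∩ D) := by
    intro C D hC hD
    exact L2.real_inner_indicatorConstLp_one_indicatorConstLp_one (μ := μ) hC hD
      (measure_ne_top μ C) (measure_ne_top μ D)
  set p := μ.real A with hp
  set G : Lp ℝ 2 μ := x - p • o with hG
  have hUlin : ∀ n, U^[n] G = U^[n] x - p • o := by
    intro n
    have h1 : ∀ n (y z : Lp ℝ 2 μ), U^[n] (y - z) = U^[n] y - U^[n] z := by
      intro n y z
      induction n with
      | zero => rfl
      | succ n ih => rw [Function.iterate_succ_apply', ih, map_sub,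
          Function.iterate_succ_apply', Function.iterate_succ_apply']
    have h2 : ∀ n, U^[n] (p • o) = p • o := by
      intro n
      induction n with
      | zero => rfl
      | succ n ih =>
        rw [Function.iterate_succ_apply', ih, map_smul]
        have := hUo 1
        simp only [Function.iterate_one] at this
        rw [this]
    rw [hG, h1, h2]
  have hpre : ∀ n, μ.real (T^[n] ⁻¹' A) = p := fun n =>
    (hT.iterate n).measureReal_preimage hA.nullMeasurableSet
  have hc : ∀ n, 1 ≤ n → inner ℝ (U^[n] G) G ≤ 0 := by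
    intro n hn
    rw [hUlin n, hG, hUx n]
    rw [inner_sub_left, inner_sub_right, inner_sub_right, inner_smul_left, inner_smul_right,
      inner_smul_left, inner_smul_right]
    have e1 : inner ℝ (indicatorConstLp 2 ((hT.iterate n).measurable hA)
      (measure_ne_top μ _) (1 : ℝ)) x = μ.real (T^[n] ⁻¹' A ∩ A) := hinner _ _ _ _
    have e2 : inner ℝ (indicatorConstLp 2 ((hT.iterate n).measurable hA)
      (measure_ne_top μ _) (1 : ℝ)) o = μ.real (T^[n] ⁻¹' A ∩ Set.univ) := hinner _ _ _ _
    have e3 : inner ℝ o x = μ.real (Set.univ ∩ A) := hinner _ _ _ _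
    have e4 : inner ℝ o o = μ.real (Set.univ ∩ Set.univ) := hinner _ _ _ _
    rw [e1, e2, e3, e4, Set.inter_univ, Set.univ_inter, Set.inter_univ, hpre, probReal_univ,
      Set.inter_comm]
    have := hur n hn
    simp only [conj_trivial]
    rw [← hp]
    nlinarith
  have h := hilbert_mix U G hc b
  have e5 : ∀ n, inner ℝ (U^[n] G) b = μ.real (T^[n] ⁻¹' A ∩ B) - p * μ.real B := by
    intro n
    rw [hUlin n, hUx n, inner_sub_left, inner_smul_left]
    have e1 : inner ℝ (indicatorConstLp 2 ((hT.iterate n).measurable hA)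
      (measure_ne_top μ _) (1 : ℝ)) b = μ.real (T^[n] ⁻¹' A ∩ B) := hinner _ _ _ _
    have e2 : inner ℝ o b = μ.real (Set.univ ∩ B) := hinner _ _ _ _
    rw [e1, e2, Set.univ_inter]
    simp
  simp only [e5] at h
  have h2 := h.add_const (p * μ.real B)
  simpa using h2

end Pool.Agent.R203.UnderRec
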