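import Mathlib
import Pool.Agent.Helper765.RigidMixing

/-!
# Words for MP_2e5000_an

Level `k` has `2 ^ k` words `W k j`, all of period `2 ^ AA k`. The word `W (k+1) j` is a
concatenation of `2 ^ cc k` runs of length `2 ^ bb k j`; each run is one of the level `k` words in
one of its phases, and the states of the runs at distance half a period are equidistributed.
-/

set_option autoImplicit false
open MeasureTheory Filter Topology

namespace Pool.Agent.R203.Xor

open Pool.Agent.Helper765.F2c841 (avg sum_shift avg_shift sum_blocks avg_boundary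
  sum_mul_range avg_mono_abs avg_const)

def AA : ℕ → ℕ
  | 0 => 1
  | k + 1 => AA k + (k + 1) + 2 ^ (k + 1) * (2 * (k + AA k) + 1 + (k + 2))

def cc (k : ℕ) : ℕ := 2 * (k + AA k) + 1
def LL (k : ℕ) : ℕ := cc k + (k + 2)
def bb (k j : ℕ) : ℕ := AA k + (k + 1) + j * LL k
def aa (k j : ℕ) : ℕ := bb k j + cc k
def NN (k : ℕ) : ℕ := 2 ^ (k + AA k)

/-- the state on the run number `r` -/
def seq (k r : ℕ) : ℕ := if r < NN k ^ 2 then r / NN k else r % NN k

/-- the number of the run -/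
def run (k j : ℕ) (t : ℤ) : ℕ := ((t / 2 ^ bb k j) % 2 ^ cc k).toNat

/-- the words -/
def W : ℕ → ℕ → ℤ → ZMod 2
  | 0, _, t => (t : ZMod 2)
  | k + 1, j, t => W k (seq k (run k j t) / 2 ^ AA k) (t + (seq k (run k j t) % 2 ^ AA k : ℕ))

/-- the states of level `k`: word number `s / 2 ^ AA k` in phase `s % 2 ^ AA k` -/
def st (k s : ℕ) (t : ℤ) : ZMod 2 := W k (s / 2 ^ AA k) (t + (s % 2 ^ AA k : ℕ))

lemma AA_succ (k : ℕ) : AA (k + 1) = AA k + (k + 1) + 2 ^ (k + 1) * LL k := rfl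

lemma W_succ (k j : ℕ) (t : ℤ) : W (k + 1) j t = st k (seq k (run k j t)) t := rfl

lemma NN_pos (k : ℕ) : 0 < NN k := Nat.pow_pos (by norm_num)

lemma two_cc (k : ℕ) : 2 ^ cc k = NN k ^ 2 + NN k ^ 2 := by
  rw [cc, NN, pow_succ, ← pow_mul, mul_comm 2 (k + AA k)]
  ring

lemma seq_lt {k r : ℕ} (h : r < 2 ^ cc k) : seq k r < NN k := by
  unfold seq
  split_ifs with h1
  · apply Nat.div_lt_of_lt_mul
    rw [← sq]
    exact h1
  · exact Nat.mod_lt _ (NN_pos k)

lemma run_lt (k j : ℕ) (t : ℤ) : run k j t < 2 ^ cc k := by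
  unfold run
  have h1 : (0 : ℤ) < 2 ^ cc k := by positivity
  have h2 := Int.emod_lt_of_pos (t / 2 ^ bb k j) h1
  have h3 := Int.emod_nonneg (t / 2 ^ bb k j) h1.ne'
  zify
  rw [Int.toNat_of_nonneg h3]
  exact h2

lemma run_nat (k j r o : ℕ) (hr : r < 2 ^ cc k) (ho : o < 2 ^ bb k j) :
    run k j ((r * 2 ^ bb k j + o : ℕ) : ℤ) = r := by
  unfold run
  have h1 : (((r * 2 ^ bb k j + o : ℕ) : ℤ)) / (2 : ℤ) ^ bb k j = ((r : ℕ) : ℤ) := by
    have : (((r * 2 ^ bb k j + o) / 2 ^ bb k j : ℕ) : ℤ) = (r : ℤ) := by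
      rw [mul_comm, Nat.mul_add_div (by positivity), Nat.div_eq_of_lt ho, add_zero]
    rw [← this]
    push_cast
    rfl
  rw [h1, Int.emod_eq_of_lt (by positivity) (by exact_mod_cast hr)]
  simp

lemma run_period (k j : ℕ) (t m : ℤ) : run k j (t + 2 ^ aa k j * m) = run k j t := by
  unfold run
  have h1 : t + 2 ^ aa k j * m = t + 2 ^ bb k j * (2 ^ cc k * m) := by
    rw [aa, pow_add]; ring
  rw [h1, Int.add_mul_ediv_left _ _ (by positivity), Int.add_mul_emod_self_left]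

/-- inside a run -/
lemma run_add (k j : ℕ) (t x : ℤ) (h0 : 0 ≤ t % 2 ^ bb k j + x)
    (h1 : t % 2 ^ bb k j + x < 2 ^ bb k j) : run k j (t + x) = run k j t := by
  unfold run
  have h2 : (t + x) / (2 : ℤ) ^ bb k j = t / 2 ^ bb k j := by
    have e : t + x = (t % 2 ^ bb k j + x) + 2 ^ bb k j * (t / 2 ^ bb k j) := by
      have := Int.emod_add_mul_ediv t (2 ^ bb k j)
      linarith
    rw [e, Int.add_mul_ediv_left _ _ (by positivity), Int.ediv_eq_zero_of_lt h0 h1, zero_add]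
  rw [h2]

/-- half a period further -/
lemma run_half (k j : ℕ) (t : ℤ) :
    run k j (t + ((2 ^ bb k j * NN k ^ 2 : ℕ) : ℤ)) = (run k j t + NN k ^ 2) % 2 ^ cc k := by
  unfold run
  have h1 : (t + ((2 ^ bb k j * NN k ^ 2 : ℕ) : ℤ)) / (2 : ℤ) ^ bb k j =
      t / 2 ^ bb k j + ((NN k ^ 2 : ℕ) : ℤ) := by
    rw [Nat.cast_mul, Nat.cast_pow]
    exact Int.add_mul_ediv_left _ _ (by positivity)
  rw [h1]
  have hpos : (0 : ℤ) < 2 ^ cc k := by positivity
  have h3 := Int.emod_nonneg (t / 2 ^ bb k j) hpos.ne'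
  have h4 := Int.emod_nonneg (t / 2 ^ bb k j + ((NN k ^ 2 : ℕ) : ℤ)) hpos.ne'
  zify
  push_cast at h4
  rw [Int.toNat_of_nonneg h4, Int.toNat_of_nonneg h3, Int.emod_add_emod]

lemma aa_le (k j : ℕ) (hj : j < 2 ^ (k + 1)) : aa k j ≤ AA (k + 1) := by
  rw [AA_succ, aa, bb]
  have h1 : j * LL k + LL k ≤ 2 ^ (k + 1) * LL k := by
    have : (j + 1) * LL k ≤ 2 ^ (k + 1) * LL k := Nat.mul_le_mul_right _ hj
    linarith
  have h2 : cc k ≤ LL k := Nat.le_add_right _ _
  omega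

lemma AA_le_bb (k j : ℕ) : AA k + (k + 1) ≤ bb k j := Nat.le_add_right _ _

lemma W_periodic : ∀ k j : ℕ, j < 2 ^ k → Function.Periodic (W k j) ((2 : ℤ) ^ AA k) := by
  intro k
  induction k with
  | zero =>
    intro j _ t
    show ((t + 2 ^ AA 0 : ℤ) : ZMod 2) = (t : ZMod 2)
    have : AA 0 = 1 := rfl
    rw [this]
    push_cast
    have h2 : (2 : ZMod 2) = 0 := by decide
    rw [h2]
    simp
  | succ k ih =>
    intro j hj t
    have hst : ∀ s, s < NN k → ∀ (u m : ℤ), st k s (u + 2 ^ AA k * m) = st k s u := by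
      intro s hs u m
      unfold st
      have hs' : s / 2 ^ AA k < 2 ^ k := by
        apply Nat.div_lt_of_lt_mul
        rw [← pow_add, add_comm]
        exact hs
      have h1 := (ih _ hs').int_mul m (u + (s % 2 ^ AA k : ℕ))
      rw [← h1]
      congr 1
      simp only [Int.cast_id]
      ring
    rw [W_succ, W_succ]
    have e1 : (2 : ℤ) ^ AA (k + 1) = 2 ^ aa k j * 2 ^ (AA (k + 1) - aa k j) := by
      rw [← pow_add, Nat.add_sub_cancel' (aa_le k j hj)]
    have e2 : (2 : ℤ) ^ AA (k + 1) = 2 ^ AA k * 2 ^ (AA (k + 1) - AA k) := by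
      rw [← pow_add, Nat.add_sub_cancel']
      rw [AA_succ]; omega
    have h1 : run k j (t + 2 ^ AA (k + 1)) = run k j t := by
      rw [e1]; exact run_period k j t _
    rw [h1, e2]
    exact hst _ (seq_lt (run_lt k j t)) _ _

lemma st_period {k s : ℕ} (hs : s < NN k) (u m : ℤ) : st k s (u + 2 ^ AA k * m) = st k s u := by
  unfold st
  have hs' : s / 2 ^ AA k < 2 ^ k := by
    apply Nat.div_lt_of_lt_mul
    rw [← pow_add, add_comm]
    exact hs
  have h1 := (W_periodic k _ hs').int_mul m (u + (s % 2 ^ AA k : ℕ))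
  rw [← h1]
  congr 1
  simp only [Int.cast_id]
  ring

lemma W_period_aa (k j : ℕ) (t m : ℤ) : W (k + 1) j (t + 2 ^ aa k j * m) = W (k + 1) j t := by
  rw [W_succ, W_succ, run_period]
  have e2 : (2 : ℤ) ^ aa k j = 2 ^ AA k * 2 ^ (aa k j - AA k) := by
    rw [← pow_add, Nat.add_sub_cancel']
    have := AA_le_bb k j
    rw [aa]; omega
  rw [e2, mul_assoc]
  exact st_period (seq_lt (run_lt k j t)) _ _

/-! ### Frequencies -/

abbrev Om : Type := ℤ → ZMod 2

/-- average of `f` over the states of level `k` -/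
noncomputable def fr (k : ℕ) (f : Om → ℝ) : ℝ := (∑ s ∈ Finset.range (NN k), f (st k s)) / NN k

lemma st_eq (k j φ : ℕ) (hφ : φ < 2 ^ AA k) : st k (j * 2 ^ AA k + φ) =
    fun x => W k j ((φ : ℤ) + x) := by
  funext x
  unfold st
  have h1 : (j * 2 ^ AA k + φ) / 2 ^ AA k = j := by
    rw [mul_comm, Nat.mul_add_div (by positivity), Nat.div_eq_of_lt hφ, add_zero]
  have h2 : (j * 2 ^ AA k + φ) % 2 ^ AA k = φ := by
    rw [mul_comm, Nat.mul_add_mod, Nat.mod_eq_of_lt hφ]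
  rw [h1, h2, add_comm]

lemma fr_types (k : ℕ) (f : Om → ℝ) :
    fr k f = (∑ j ∈ Finset.range (2 ^ k),
      avg (2 ^ AA k) (fun t => f (fun x => W k j (t + x)))) / (2 : ℝ) ^ k := by
  unfold fr avg
  have h1 : ∑ s ∈ Finset.range (NN k), f (st k s) = ∑ j ∈ Finset.range (2 ^ k),
      ∑ φ ∈ Finset.range (2 ^ AA k), f (fun x => W k j ((φ : ℤ) + x)) := by
    rw [NN, pow_add, sum_mul_range]
    refine Finset.sum_congr rfl fun j _ => Finset.sum_congr rfl fun φ hφ => ?_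
    rw [st_eq k j φ (Finset.mem_range.1 hφ)]
  rw [h1, ← Finset.sum_div, NN]
  push_cast
  rw [div_div, ← pow_add, add_comm]

lemma fper (k j : ℕ) (hj : j < 2 ^ k) (f : Om → ℝ) (t : ℤ) :
    (fun t => f (fun x => W k j (t + x))) (t + ((2 ^ AA k : ℕ) : ℤ)) =
      (fun t => f (fun x => W k j (t + x))) t := by
  show f (fun x => W k j (t + ((2 ^ AA k : ℕ) : ℤ) + x)) = f (fun x => W k j (t + x))
  congr 1
  funext x
  have := W_periodic k j hj (t + x)
  rw [← this]
  congr 1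
  push_cast
  ring

lemma fr_shift (k : ℕ) (f : Om → ℝ) (a : ℤ) :
    fr k (fun ω => f (fun x => ω (a + x))) = fr k f := by
  rw [fr_types, fr_types]
  congr 1
  refine Finset.sum_congr rfl fun j hj => ?_
  rw [← avg_shift (2 ^ AA k) (fun t => f (fun x => W k j (t + x)))
    (fper k j (Finset.mem_range.1 hj) f) a]
  congr 1
  funext t
  congr 1
  funext x
  rw [add_assoc]

/-- averages of functions which depend on the run -/
lemma avg_run (k j : ℕ) (hj : j < 2 ^ (k + 1)) (G : ℕ → ℤ → ℝ)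
    (hG : ∀ r < 2 ^ cc k, ∀ t, G r (t + ((2 ^ AA k : ℕ) : ℤ)) = G r t) :
    avg (2 ^ AA (k + 1)) (fun t => G (run k j t) t) =
      (∑ r ∈ Finset.range (2 ^ cc k), avg (2 ^ AA k) (G r)) / (2 : ℝ) ^ cc k := by
  have hGm : ∀ r < 2 ^ cc k, ∀ t m : ℤ, G r (t + 2 ^ AA k * m) = G r t := by
    intro r hr t m
    have hp : Function.Periodic (G r) ((2 : ℤ) ^ AA k) := by
      intro t
      have := hG r hr t
      push_cast at this
      exact this
    have h1 := hp.int_mul m t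
    rw [← h1]
    congr 1
    simp only [Int.cast_id]
    ring
  set R := 2 ^ bb k j with hR
  set M := 2 ^ cc k with hM
  set P := 2 ^ AA k with hP
  set K := 2 ^ (AA (k + 1) - aa k j) with hK
  have hfull : 2 ^ AA (k + 1) = K * (M * R) := by
    rw [hK, hM, hR, ← pow_add, ← pow_add]
    congr 1
    have := aa_le k j hj
    rw [aa] at this ⊢
    omega
  have hAb := AA_le_bb k j
  have hRP : R = 2 ^ (bb k j - AA k) * P := by
    rw [hR, hP, ← pow_add]
    congr 1
    omega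
  have hper : ∀ t : ℤ, (fun t => G (run k j t) t) (t + ((M * R : ℕ) : ℤ)) =
      (fun t => G (run k j t) t) t := by
    intro t
    show G (run k j (t + ((M * R : ℕ) : ℤ))) (t + ((M * R : ℕ) : ℤ)) = G (run k j t) t
    have e1 : ((M * R : ℕ) : ℤ) = 2 ^ aa k j * 1 := by
      rw [hM, hR, aa, pow_add]; push_cast; ring
    have e2 : ((M * R : ℕ) : ℤ) = 2 ^ AA k * (M * 2 ^ (bb k j - AA k)) := by
      rw [hRP, hP]; push_cast; ring
    rw [show run k j (t + ((M * R : ℕ) : ℤ)) = run k j t by rw [e1]; exact run_period k j t 1, e2]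
    exact hGm _ (run_lt k j t) _ _
  have h1 := sum_blocks (M * R) (fun t => G (run k j t) t) hper 0 K
  have h2 : ∑ t ∈ Finset.range (M * R), G (run k j (t : ℤ)) (t : ℤ) =
      2 ^ (bb k j - AA k) * ∑ r ∈ Finset.range M, ∑ t ∈ Finset.range P, G r (t : ℤ) := by
    rw [sum_mul_range M R (fun t => G (run k j (t : ℤ)) (t : ℤ)), Finset.mul_sum]
    refine Finset.sum_congr rfl fun r hr => ?_
    have hr' := Finset.mem_range.1 hr
    have h3 : ∀ o ∈ Finset.range R, G (run k j ((r * R + o : ℕ) : ℤ)) ((r * R + o : ℕ) : ℤ) =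
        G r (((r * R : ℕ) : ℤ) + (o : ℤ)) := by
      intro o ho
      rw [hR, run_nat k j r o hr' (Finset.mem_range.1 ho)]
      push_cast
      rfl
    rw [Finset.sum_congr rfl h3]
    have h4 := sum_blocks P (G r) (hG r hr') ((r * R : ℕ) : ℤ) (2 ^ (bb k j - AA k))
    rw [← hRP] at h4
    rw [h4]
    push_cast
    rfl
  unfold avg
  rw [hfull]
  have h3 : ∑ t ∈ Finset.range (K * (M * R)), G (run k j (t : ℤ)) (t : ℤ) =
      K * (2 ^ (bb k j - AA k) * ∑ r ∈ Finset.range M, ∑ t ∈ Finset.range P, G r (t : ℤ)) := by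
    rw [← h2]
    simpa using h1
  rw [h3, ← Finset.sum_div]
  have hKr : (K : ℝ) ≠ 0 := by rw [hK]; positivity
  have hMr : (M : ℝ) ≠ 0 := by rw [hM]; positivity
  have hPr : (P : ℝ) ≠ 0 := by rw [hP]; positivity
  have hRr : (R : ℝ) = 2 ^ (bb k j - AA k) * P := by rw [hRP]; push_cast; rfl
  have hMr2 : (2 : ℝ) ^ cc k = M := by rw [hM]; push_cast; rfl
  rw [hMr2]
  push_cast
  rw [hRr]
  field_simp

/-- pairs of states at distance half a period -/
lemma sum_pairs (k : ℕ) (H : ℕ → ℕ → ℝ) :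
    ∑ r ∈ Finset.range (2 ^ cc k), H (seq k r) (seq k ((r + NN k ^ 2) % 2 ^ cc k)) =
      2 * ∑ a ∈ Finset.range (NN k), ∑ b ∈ Finset.range (NN k), H a b := by
  have hN := NN_pos k
  rw [two_cc, Finset.sum_range_add]
  have h1 : ∀ x ∈ Finset.range (NN k ^ 2),
      H (seq k x) (seq k ((x + NN k ^ 2) % (NN k ^ 2 + NN k ^ 2))) =
        H (x / NN k) (x % NN k) := by
    intro x hx
    have hx' := Finset.mem_range.1 hx
    rw [Nat.mod_eq_of_lt (by omega)]
    unfold seq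
    rw [if_pos hx', if_neg (by omega), sq, Nat.add_mul_mod_self_left]
  have h2 : ∀ x ∈ Finset.range (NN k ^ 2),
      H (seq k (NN k ^ 2 + x)) (seq k ((NN k ^ 2 + x + NN k ^ 2) % (NN k ^ 2 + NN k ^ 2))) =
        H (x % NN k) (x / NN k) := by
    intro x hx
    have hx' := Finset.mem_range.1 hx
    rw [show NN k ^ 2 + x + NN k ^ 2 = x + (NN k ^ 2 + NN k ^ 2) by ring, Nat.add_mod_right,
      Nat.mod_eq_of_lt (by omega)]
    unfold seq
    rw [if_pos hx', if_neg (by omega), sq, Nat.mul_add_mod]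
  rw [Finset.sum_congr rfl h1, Finset.sum_congr rfl h2]
  have key : ∀ F : ℕ → ℕ → ℝ, ∑ x ∈ Finset.range (NN k ^ 2), F (x / NN k) (x % NN k) =
      ∑ a ∈ Finset.range (NN k), ∑ b ∈ Finset.range (NN k), F a b := by
    intro F
    rw [sq, sum_mul_range (NN k) (NN k) (fun x => F (x / NN k) (x % NN k))]
    refine Finset.sum_congr rfl fun a _ => Finset.sum_congr rfl fun b hb => ?_
    have hb' := Finset.mem_range.1 hb
    rw [mul_comm a, Nat.mul_add_div hN, Nat.div_eq_of_lt hb', add_zero, Nat.mul_add_mod,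
      Nat.mod_eq_of_lt hb']
  rw [key H, key (fun a b => H b a), Finset.sum_comm (f := fun a b => H b a)]
  ring

lemma sum_single (k : ℕ) (h : ℕ → ℝ) :
    ∑ r ∈ Finset.range (2 ^ cc k), h (seq k r) = 2 * NN k * ∑ a ∈ Finset.range (NN k), h a := by
  have := sum_pairs k (fun a _ => h a)
  simp only [Finset.sum_const, Finset.card_range, nsmul_eq_mul] at this
  rw [this, ← Finset.mul_sum]
  ring

/-! ### Window functions -/

/-- `f` depends only on the coordinates in `[-a, b]` -/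
def WinF (a b : ℕ) (f : Om → ℝ) : Prop :=
  ∀ ω ω' : Om, (∀ x : ℤ, -(a : ℤ) ≤ x → x ≤ b → ω x = ω' x) → f ω = f ω'

/-- the word `W (k+1) j` inside a run -/
lemma W_in_run (k j : ℕ) (t x : ℤ) (h0 : 0 ≤ t % 2 ^ bb k j + x)
    (h1 : t % 2 ^ bb k j + x < 2 ^ bb k j) :
    W (k + 1) j (t + x) = st k (seq k (run k j t)) (t + x) := by
  rw [W_succ, run_add k j t x h0 h1]

lemma st_shift_period {k s : ℕ} (hs : s < NN k) (f : Om → ℝ) (t : ℤ) :
    f (fun x => st k s (t + ((2 ^ AA k : ℕ) : ℤ) + x)) = f (fun x => st k s (t + x)) := by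
  congr 1
  funext x
  have := st_period hs (t + x) 1
  rw [← this]
  congr 1
  push_cast
  ring

lemma full_dvd (k j : ℕ) (hj : j < 2 ^ (k + 1)) :
    2 ^ AA (k + 1) = 2 ^ bb k j * 2 ^ (AA (k + 1) - bb k j) := by
  rw [← pow_add, Nat.add_sub_cancel']
  have := aa_le k j hj
  rw [aa] at this
  omega

lemma sub_le_one {x y : ℝ} (h0 : 0 ≤ x) (h1 : x ≤ 1) (h2 : 0 ≤ y) (h3 : y ≤ 1) :
    |x - y| ≤ 1 := by
  rw [abs_le]; constructor <;> linarith

/-- averages of a constant -/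
lemma avg_avg (k : ℕ) (h : ℕ → ℝ) :
    (∑ r ∈ Finset.range (2 ^ cc k), h (seq k r)) / (2 : ℝ) ^ cc k =
      (∑ s ∈ Finset.range (NN k), h s) / NN k := by
  rw [sum_single]
  have h1 : (2 : ℝ) ^ cc k = 2 * (NN k : ℝ) ^ 2 := by
    have := two_cc k
    have h2 : ((2 ^ cc k : ℕ) : ℝ) = ((NN k ^ 2 + NN k ^ 2 : ℕ) : ℝ) := by rw [this]
    push_cast at h2
    rw [h2]; ring
  have hN : (NN k : ℝ) ≠ 0 := by exact_mod_cast (NN_pos k).ne'
  rw [h1]
  field_simp

lemma avg_states (k : ℕ) (f : Om → ℝ) :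
    (∑ s ∈ Finset.range (NN k), avg (2 ^ AA k) (fun t => f (fun x => st k s (t + x)))) / NN k =
      fr k f := by
  unfold avg
  rw [← Finset.sum_div, Finset.sum_comm]
  have h1 : ∀ t ∈ Finset.range (2 ^ AA k), ∑ s ∈ Finset.range (NN k),
      f (fun x => st k s ((t : ℤ) + x)) = NN k * fr k f := by
    intro t _
    have := fr_shift k f (t : ℤ)
    rw [fr] at this
    have hN : (NN k : ℝ) ≠ 0 := by exact_mod_cast (NN_pos k).ne'
    rw [← this]
    field_simp
  rw [Finset.sum_congr rfl h1, Finset.sum_const, Finset.card_range, nsmul_eq_mul]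
  have hN : (NN k : ℝ) ≠ 0 := by exact_mod_cast (NN_pos k).ne'
  push_cast
  field_simp

/-- one word of level `k + 1` against the level `k` frequencies -/
lemma type_step (k j : ℕ) (hj : j < 2 ^ (k + 1)) (a b : ℕ) (f : Om → ℝ) (hf : WinF a b f)
    (h0 : ∀ ω, 0 ≤ f ω) (h1 : ∀ ω, f ω ≤ 1) :
    |avg (2 ^ AA (k + 1)) (fun t => f (fun x => W (k + 1) j (t + x))) - fr k f| ≤
      ((a : ℝ) + b) / ((2 ^ bb k j : ℕ) : ℝ) := by
  let G : ℕ → ℤ → ℝ := fun r t => f (fun x => st k (seq k r) (t + x))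
  have hG : ∀ r < 2 ^ cc k, ∀ t, G r (t + ((2 ^ AA k : ℕ) : ℤ)) = G r t := fun r hr t =>
    st_shift_period (seq_lt hr) f t
  have h2 : avg (2 ^ AA (k + 1)) (fun t => G (run k j t) t) = fr k f := by
    rw [avg_run k j hj G hG]
    have := avg_avg k (fun s => avg (2 ^ AA k) (fun t => f (fun x => st k s (t + x))))
    rw [← avg_states k f, ← this]
  rw [← h2, full_dvd k j hj]
  apply avg_boundary _ _ a b (by positivity) (by positivity)
  · intro t g0 g1
    apply hf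
    intro x hx0 hx1
    have e : ((2 ^ bb k j : ℕ) : ℤ) = 2 ^ bb k j := by push_cast; rfl
    rw [e] at g0 g1
    exact W_in_run k j t x (by linarith) (by linarith)
  · intro t
    exact sub_le_one (h0 _) (h1 _) (h0 _) (h1 _)

lemma bb_zero_le (k j : ℕ) : 2 ^ (AA k + (k + 1)) ≤ 2 ^ bb k j :=
  Nat.pow_le_pow_right (by norm_num) (AA_le_bb k j)

lemma fr_step (k a b : ℕ) (f : Om → ℝ) (hf : WinF a b f)
    (h0 : ∀ ω, 0 ≤ f ω) (h1 : ∀ ω, f ω ≤ 1) :
    |fr (k + 1) f - fr k f| ≤ ((a : ℝ) + b) / (2 : ℝ) ^ (AA k + (k + 1)) := by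
  rw [fr_types (k + 1)]
  have e : (∑ j ∈ Finset.range (2 ^ (k + 1)),
      avg (2 ^ AA (k + 1)) (fun t => f (fun x => W (k + 1) j (t + x)))) / (2 : ℝ) ^ (k + 1) -
      fr k f = (∑ j ∈ Finset.range (2 ^ (k + 1)),
      (avg (2 ^ AA (k + 1)) (fun t => f (fun x => W (k + 1) j (t + x))) - fr k f)) /
        (2 : ℝ) ^ (k + 1) := by
    rw [Finset.sum_sub_distrib, Finset.sum_const, Finset.card_range, nsmul_eq_mul]
    push_cast
    field_simp
  rw [e, abs_div, abs_of_pos (by positivity : (0 : ℝ) < 2 ^ (k + 1)), div_le_iff₀ (by positivity)]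
  have h2 : ∀ j ∈ Finset.range (2 ^ (k + 1)),
      |avg (2 ^ AA (k + 1)) (fun t => f (fun x => W (k + 1) j (t + x))) - fr k f| ≤
        ((a : ℝ) + b) / (2 : ℝ) ^ (AA k + (k + 1)) := by
    intro j hj
    refine (type_step k j (Finset.mem_range.1 hj) a b f hf h0 h1).trans ?_
    apply div_le_div_of_nonneg_left (by positivity) (by positivity)
    exact_mod_cast bb_zero_le k j
  calc |∑ j ∈ Finset.range (2 ^ (k + 1)),
      (avg (2 ^ AA (k + 1)) (fun t => f (fun x => W (k + 1) j (t + x))) - fr k f)| ≤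
      ∑ j ∈ Finset.range (2 ^ (k + 1)),
      |avg (2 ^ AA (k + 1)) (fun t => f (fun x => W (k + 1) j (t + x))) - fr k f| :=
        Finset.abs_sum_le_sum_abs _ _
    _ ≤ ∑ j ∈ Finset.range (2 ^ (k + 1)), ((a : ℝ) + b) / (2 : ℝ) ^ (AA k + (k + 1)) :=
        Finset.sum_le_sum h2
    _ = ((a : ℝ) + b) / (2 : ℝ) ^ (AA k + (k + 1)) * (2 : ℝ) ^ (k + 1) := by
        rw [Finset.sum_const, Finset.card_range, nsmul_eq_mul]
        push_cast
        ring

/-! ### Mixing -/

/-- the displacement for the words `j' < j` -/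
def SS (k j : ℕ) : ℕ := ∑ i ∈ Finset.range j, 2 ^ bb k i * NN k ^ 2

/-- the mixing time -/
def nn (k : ℕ) : ℕ := SS k (2 ^ (k + 1))

lemma half_pow (k j : ℕ) : 2 * (2 ^ bb k j * NN k ^ 2) = 2 ^ aa k j := by
  rw [aa, pow_add, two_cc]; ring

lemma bb_succ (k j : ℕ) : bb k (j + 1) = aa k j + (k + 2) := by
  rw [bb, aa, bb, LL]; ring

lemma SS_le (k j : ℕ) : 2 ^ (k + 2) * SS k j ≤ 2 ^ bb k j := by
  induction j with
  | zero => simp [SS]
  | succ j ih =>
    have h1 : SS k (j + 1) = SS k j + 2 ^ bb k j * NN k ^ 2 := by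
      rw [SS, Finset.sum_range_succ]; rfl
    have h2 : 2 * (2 ^ bb k j * NN k ^ 2) = 2 ^ aa k j := half_pow k j
    have h3 : SS k j ≤ 2 ^ bb k j * NN k ^ 2 := by
      have g1 : SS k j ≤ 2 ^ (k + 2) * SS k j := Nat.le_mul_of_pos_left _ (by positivity)
      have g2 : 2 ^ bb k j ≤ 2 ^ bb k j * NN k ^ 2 :=
        Nat.le_mul_of_pos_right _ (Nat.pow_pos (NN_pos k))
      omega
    rw [bb_succ, pow_add 2 (aa k j) (k + 2), mul_comm (2 ^ aa k j)]
    apply Nat.mul_le_mul_left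
    omega

/-- the displacement `nn k`, seen by the word `j` -/
lemma nn_eq (k j : ℕ) (hj : j < 2 ^ (k + 1)) : ∃ m : ℕ,
    nn k = SS k j + 2 ^ bb k j * NN k ^ 2 + 2 ^ aa k j * m := by
  have h1 : ∀ d : ℕ, ∃ m : ℕ, SS k (j + 1 + d) = SS k (j + 1) + 2 ^ aa k j * m := by
    intro d
    induction d with
    | zero => exact ⟨0, by simp⟩
    | succ d ih =>
      obtain ⟨m, hm⟩ := ih
      have h2 : SS k (j + 1 + (d + 1)) = SS k (j + 1 + d) + 2 ^ bb k (j + 1 + d) * NN k ^ 2 := by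
        rw [SS, show j + 1 + (d + 1) = (j + 1 + d) + 1 by ring, Finset.sum_range_succ]; rfl
      have h3 : aa k j ≤ bb k (j + 1 + d) := by
        have : bb k (j + 1) ≤ bb k (j + 1 + d) := by
          rw [bb, bb]
          have : (j + 1) * LL k ≤ (j + 1 + d) * LL k := Nat.mul_le_mul_right _ (by omega)
          omega
        rw [bb_succ] at this
        omega
      refine ⟨m + 2 ^ (bb k (j + 1 + d) - aa k j) * NN k ^ 2, ?_⟩
      rw [h2, hm]
      have h4 : 2 ^ bb k (j + 1 + d) = 2 ^ aa k j * 2 ^ (bb k (j + 1 + d) - aa k j) := by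
        rw [← pow_add, Nat.add_sub_cancel' h3]
      rw [h4]
      ring
  obtain ⟨m, hm⟩ := h1 (2 ^ (k + 1) - (j + 1))
  refine ⟨m, ?_⟩
  rw [nn, show 2 ^ (k + 1) = j + 1 + (2 ^ (k + 1) - (j + 1)) by omega, hm, SS,
    Finset.sum_range_succ]
  rfl

/-- `SS k j` is a multiple of the level `k` period -/
lemma SS_dvd (k j : ℕ) : ∃ m : ℕ, SS k j = 2 ^ AA k * m := by
  have : 2 ^ AA k ∣ SS k j := by
    apply Finset.dvd_sum
    intro i _
    apply Dvd.dvd.mul_right
    apply pow_dvd_pow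
    have := AA_le_bb k i
    omega
  exact this

lemma bb_dvd (k j : ℕ) : ∃ m : ℕ, 2 ^ bb k j * NN k ^ 2 = 2 ^ AA k * m := by
  have : 2 ^ AA k ∣ 2 ^ bb k j * NN k ^ 2 := by
    apply Dvd.dvd.mul_right
    apply pow_dvd_pow
    have := AA_le_bb k j
    omega
  exact this

lemma type_mix (k j : ℕ) (hj : j < 2 ^ (k + 1)) (a b : ℕ) (f g : Om → ℝ) (hf : WinF a b f)
    (hg : WinF a b g) (f0 : ∀ ω, 0 ≤ f ω) (f1 : ∀ ω, f ω ≤ 1) (g0 : ∀ ω, 0 ≤ g ω)
    (g1 : ∀ ω, g ω ≤ 1) :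
    |avg (2 ^ AA (k + 1)) (fun t => f (fun x => W (k + 1) j (t + x)) *
        g (fun x => W (k + 1) j (t + x + nn k))) - fr k f * fr k g| ≤
      ((a : ℝ) + b + SS k j) / ((2 ^ bb k j : ℕ) : ℝ) := by
  let G : ℕ → ℤ → ℝ := fun r t => f (fun x => st k (seq k r) (t + x)) *
    g (fun x => st k (seq k ((r + NN k ^ 2) % 2 ^ cc k)) (t + x))
  have hmod : ∀ r, (r + NN k ^ 2) % 2 ^ cc k < 2 ^ cc k := fun r =>
    Nat.mod_lt _ (by positivity)
  have hG : ∀ r < 2 ^ cc k, ∀ t, G r (t + ((2 ^ AA k : ℕ) : ℤ)) = G r t := fun r hr t => by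
    show f _ * g _ = f _ * g _
    rw [st_shift_period (seq_lt hr) f t, st_shift_period (seq_lt (hmod r)) g t]
  have h2 : avg (2 ^ AA (k + 1)) (fun t => G (run k j t) t) = fr k f * fr k g := by
    rw [avg_run k j hj G hG]
    have e1 : ∑ r ∈ Finset.range (2 ^ cc k), avg (2 ^ AA k) (G r) =
        2 * ∑ s ∈ Finset.range (NN k), ∑ s' ∈ Finset.range (NN k),
          avg (2 ^ AA k) (fun t => f (fun x => st k s (t + x)) * g (fun x => st k s' (t + x))) :=
      sum_pairs k (fun s s' => avg (2 ^ AA k) (fun t => f (fun x => st k s (t + x)) *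
        g (fun x => st k s' (t + x))))
    have e2 : ∑ s ∈ Finset.range (NN k), ∑ s' ∈ Finset.range (NN k),
          avg (2 ^ AA k) (fun t => f (fun x => st k s (t + x)) * g (fun x => st k s' (t + x))) =
        (NN k : ℝ) ^ 2 * (fr k f * fr k g) := by
      have hN : (NN k : ℝ) ≠ 0 := by exact_mod_cast (NN_pos k).ne'
      have e3 : ∑ s ∈ Finset.range (NN k), ∑ s' ∈ Finset.range (NN k),
          avg (2 ^ AA k) (fun t => f (fun x => st k s (t + x)) * g (fun x => st k s' (t + x))) =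
          (∑ t ∈ Finset.range (2 ^ AA k), (∑ s ∈ Finset.range (NN k),
            f (fun x => st k s ((t : ℤ) + x))) * (∑ s' ∈ Finset.range (NN k),
            g (fun x => st k s' ((t : ℤ) + x)))) / ((2 ^ AA k : ℕ) : ℝ) := by
        unfold avg
        simp only [← Finset.sum_div]
        congr 1
        simp only [Finset.sum_mul_sum]
        symm
        rw [Finset.sum_comm]
        refine Finset.sum_congr rfl fun s _ => ?_
        rw [Finset.sum_comm]
      have e4 : ∀ (h : Om → ℝ) (t : ℕ), ∑ s ∈ Finset.range (NN k),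
          h (fun x => st k s ((t : ℤ) + x)) = NN k * fr k h := by
        intro h t
        have := fr_shift k h (t : ℤ)
        rw [fr] at this
        rw [← this]
        field_simp
      rw [e3]
      simp only [e4]
      rw [Finset.sum_const, Finset.card_range, nsmul_eq_mul]
      push_cast
      field_simp
    rw [e1, e2]
    have h1 : (2 : ℝ) ^ cc k = 2 * (NN k : ℝ) ^ 2 := by
      have h2 : ((2 ^ cc k : ℕ) : ℝ) = ((NN k ^ 2 + NN k ^ 2 : ℕ) : ℝ) := by rw [two_cc k]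
      push_cast at h2
      rw [h2]; ring
    have hN : (NN k : ℝ) ≠ 0 := by exact_mod_cast (NN_pos k).ne'
    rw [h1]
    field_simp
  have hcast : ((a : ℝ) + b + SS k j) = (a : ℝ) + ((b + SS k j : ℕ) : ℝ) := by push_cast; ring
  rw [← h2, full_dvd k j hj, hcast]
  apply avg_boundary _ _ a (b + SS k j) (by positivity) (by positivity)
  · intro t q0 q1
    have e : ((2 ^ bb k j : ℕ) : ℤ) = 2 ^ bb k j := by push_cast; rfl
    rw [e] at q0 q1
    push_cast at q1
    have hS0 : (0 : ℤ) ≤ SS k j := by positivity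
    show f _ * g _ = f _ * g _
    congr 1
    · apply hf
      intro x hx0 hx1
      exact W_in_run k j t x (by linarith) (by linarith)
    · apply hg
      intro x hx0 hx1
      obtain ⟨m, hm⟩ := nn_eq k j hj
      obtain ⟨m1, hm1⟩ := SS_dvd k j
      obtain ⟨m2, hm2⟩ := bb_dvd k j
      show W (k + 1) j (t + x + nn k) =
        st k (seq k ((run k j t + NN k ^ 2) % 2 ^ cc k)) (t + x)
      have e1 : t + x + (nn k : ℤ) = (t + (x + SS k j) + ((2 ^ bb k j * NN k ^ 2 : ℕ) : ℤ)) +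
          2 ^ aa k j * m := by
        rw [hm]; push_cast; ring
      rw [e1, W_period_aa, W_succ, run_half, run_add k j t (x + SS k j) (by linarith)
        (by linarith)]
      have e2 : t + (x + (SS k j : ℤ)) + ((2 ^ bb k j * NN k ^ 2 : ℕ) : ℤ) =
          (t + x) + 2 ^ AA k * ((m1 : ℤ) + m2) := by
        rw [hm2, hm1]; push_cast; ring
      rw [e2]
      exact st_period (seq_lt (hmod _)) _ _
  · intro t
    exact sub_le_one (mul_nonneg (f0 _) (g0 _)) (mul_le_one₀ (f1 _) (g0 _) (g1 _))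
      (mul_nonneg (f0 _) (g0 _)) (mul_le_one₀ (f1 _) (g0 _) (g1 _))

lemma fr_mix (k a b : ℕ) (f g : Om → ℝ) (hf : WinF a b f)
    (hg : WinF a b g) (f0 : ∀ ω, 0 ≤ f ω) (f1 : ∀ ω, f ω ≤ 1) (g0 : ∀ ω, 0 ≤ g ω)
    (g1 : ∀ ω, g ω ≤ 1) :
    |fr (k + 1) (fun ω => f ω * g (fun x => ω (x + nn k))) - fr k f * fr k g| ≤
      ((a : ℝ) + b + 1) / (2 : ℝ) ^ k := by
  rw [fr_types (k + 1)]
  set F : ℕ → ℝ := fun j => avg (2 ^ AA (k + 1)) (fun t => f (fun x => W (k + 1) j (t + x)) *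
        g (fun x => W (k + 1) j (t + x + nn k))) with hF
  have e0 : ∀ j, avg (2 ^ AA (k + 1)) (fun t => (fun ω : Om => f ω * g (fun x => ω (x + nn k)))
      (fun x => W (k + 1) j (t + x))) = F j := by
    intro j
    rw [hF]
    simp only [add_assoc]
  simp only [e0]
  have e : (∑ j ∈ Finset.range (2 ^ (k + 1)), F j) / (2 : ℝ) ^ (k + 1) -
      fr k f * fr k g = (∑ j ∈ Finset.range (2 ^ (k + 1)), (F j - fr k f * fr k g)) /
        (2 : ℝ) ^ (k + 1) := by
    rw [Finset.sum_sub_distrib, Finset.sum_const, Finset.card_range, nsmul_eq_mul]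
    push_cast
    field_simp
  rw [e, abs_div, abs_of_pos (by positivity : (0 : ℝ) < 2 ^ (k + 1)), div_le_iff₀ (by positivity)]
  have h2 : ∀ j ∈ Finset.range (2 ^ (k + 1)),
      |F j - fr k f * fr k g| ≤ ((a : ℝ) + b + 1) / (2 : ℝ) ^ k := by
    intro j hj
    refine (type_mix k j (Finset.mem_range.1 hj) a b f g hf hg f0 f1 g0 g1).trans ?_
    have h3 : (2 : ℝ) ^ (k + 2) * SS k j ≤ (2 : ℝ) ^ bb k j := by exact_mod_cast SS_le k j
    have h4 : (2 : ℝ) ^ k ≤ (2 : ℝ) ^ bb k j := by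
      apply pow_le_pow_right₀ (by norm_num)
      have := AA_le_bb k j
      omega
    have h5 : (2 : ℝ) ^ (k + 2) = (2 : ℝ) ^ k * 4 := by rw [pow_add]; norm_num
    push_cast
    rw [div_le_div_iff₀ (by positivity) (by positivity)]
    have hS : (0 : ℝ) ≤ SS k j := by positivity
    have hab : (0 : ℝ) ≤ (a : ℝ) + b := by positivity
    have hk : (0 : ℝ) < (2 : ℝ) ^ k := by positivity
    rw [h5] at h3
    nlinarith [mul_le_mul_of_nonneg_left h4 hab, mul_nonneg hk.le hS]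
  calc |∑ j ∈ Finset.range (2 ^ (k + 1)), (F j - fr k f * fr k g)| ≤
      ∑ j ∈ Finset.range (2 ^ (k + 1)), |F j - fr k f * fr k g| :=
        Finset.abs_sum_le_sum_abs _ _
    _ ≤ ∑ j ∈ Finset.range (2 ^ (k + 1)), ((a : ℝ) + b + 1) / (2 : ℝ) ^ k :=
        Finset.sum_le_sum h2
    _ = ((a : ℝ) + b + 1) / (2 : ℝ) ^ k * (2 : ℝ) ^ (k + 1) := by
        rw [Finset.sum_const, Finset.card_range, nsmul_eq_mul]
        push_cast
        ring

end Pool.Agent.R203.Xor
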